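import Pool.Agent.H474_Inj.Defs

/-!
# Fréchet spaces and modules: basic constructions
-/

open Topology Filter

universe u v

namespace Pool.Agent.H474_Inj

section
variable {E : Type u} [AddCommGroup E] [Module ℂ E] [TopologicalSpace E] [hE : FrechetSpace E]
variable {F : Type v} [AddCommGroup F] [Module ℂ F] [TopologicalSpace F] [hF : FrechetSpace F]

instance instAdd : IsTopologicalAddGroup E := hE.add
instance instSMul : ContinuousSMul ℂ E := hE.smul
instance instConvex : LocallyConvexSpace ℝ E := hE.convex
instance instMetr : TopologicalSpace.MetrizableSpace E := hE.metrizable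

/-- Linear maps are real linear. -/
theorem map_real (f : E →ₗ[ℂ] F) (r : ℝ) (x : E) : f (r • x) = r • f x := by
  rw [← Complex.coe_smul, ← Complex.coe_smul, map_smul]

/-- A closed embedding into a Fréchet space. -/
theorem FrechetSpace.of_closedEmbedding {G : Type*} [AddCommGroup G] [Module ℂ G]
    [TopologicalSpace G] (f : G →ₗ[ℂ] E) (hf : IsClosedEmbedding f) : FrechetSpace G where
  add := hf.isInducing.topologicalAddGroup f
  smul := by
    refine ⟨hf.isInducing.continuous_iff.2 ?_⟩
    have : (f ∘ fun p : ℂ × G => p.1 • p.2) = fun p : ℂ × G => p.1 • f p.2 := by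
      funext p; simp
    rw [this]
    exact continuous_fst.smul (hf.continuous.comp continuous_snd)
  convex := by
    let g : G →ₗ[ℝ] E :=
      { toFun := f
        map_add' := map_add f
        map_smul' := fun r x => by
          rw [RingHom.id_apply, ← Complex.coe_smul, ← Complex.coe_smul, map_smul] }
    exact hf.isInducing.locallyConvexSpace (𝕜 := ℝ) (f := g)
  metrizable := hf.isEmbedding.metrizableSpace
  complete := by
    intro x hx
    obtain ⟨l, hl⟩ := hE.complete (fun n => f (x n)) (by
      have h1 := (hf.continuous.tendsto 0).comp hx
      rw [map_zero] at h1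
      refine h1.congr fun p => ?_
      simp)
    obtain ⟨y, rfl⟩ := hf.isClosed_range.mem_of_tendsto hl (Eventually.of_forall fun n => ⟨_, rfl⟩)
    exact ⟨y, (hf.isInducing.tendsto_nhds_iff).2 hl⟩

instance instProd : FrechetSpace (E × F) where
  add := inferInstance
  smul := inferInstance
  convex := inferInstance
  metrizable := inferInstance
  complete := by
    intro x hx
    obtain ⟨l, hl⟩ := hE.complete (fun n => (x n).1) (by
      have h1 := (continuous_fst.tendsto (0 : E × F)).comp hx
      exact h1)
    obtain ⟨m, hm⟩ := hF.complete (fun n => (x n).2) (by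
      have h1 := (continuous_snd.tendsto (0 : E × F)).comp hx
      exact h1)
    exact ⟨(l, m), hl.prodMk_nhds hm⟩

/-- Complete uniform groups. -/
theorem complete_of_uniform {G : Type*} [AddCommGroup G] [UniformSpace G] [IsUniformAddGroup G]
    [CompleteSpace G] (x : ℕ → G)
    (hx : Tendsto (fun p : ℕ × ℕ => x p.1 - x p.2) atTop (𝓝 0)) : ∃ l, Tendsto x atTop (𝓝 l) := by
  have h1 : CauchySeq x := by
    rw [cauchySeq_iff_tendsto, uniformity_eq_comap_nhds_zero, tendsto_comap_iff]
    have h2 : Tendsto (fun p : ℕ × ℕ => x p.2 - x p.1) atTop (𝓝 0) := by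
      have := hx.neg
      rw [neg_zero] at this
      refine this.congr fun p => ?_
      rw [neg_sub]
    exact h2
  exact cauchySeq_tendsto_of_complete h1

instance instC : FrechetSpace ℂ where
  add := inferInstance
  smul := inferInstance
  convex := inferInstance
  metrizable := inferInstance
  complete := complete_of_uniform

instance instPi {ι : Type*} [Countable ι] : FrechetSpace (ι → ℂ) where
  add := inferInstance
  smul := inferInstance
  convex := inferInstance
  metrizable := inferInstance
  complete := complete_of_uniform

end

end Pool.Agent.H474_Inj
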