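import Pool.Agent.H474_Inj.Defs

/-!
# Coresolutions
-/

open Topology Filter

universe u v w

namespace Pool.Agent.H474_Inj

section
variable {A : Type v} [NonUnitalRing A] [Module ℂ A] [TopologicalSpace A]

/-- The continuous linear maps between the underlying Fréchet spaces of two Fréchet modules. -/
def LMap (X Y : FrechetModule.{u} A) : Type u := X.carrier →L[ℂ] Y.carrier

/-- The continuous linear map as such. -/
def LMap.clm {X Y : FrechetModule.{u} A} (f : LMap X Y) : X.carrier →L[ℂ] Y.carrier := f

/-- The value of a continuous linear map. -/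
def LMap.app {X Y : FrechetModule.{u} A} (f : LMap X Y) (x : X.carrier) : Y.carrier := f.clm x

variable (A) in
/-- An admissible exact sequence `0 → M 0 → M 1 → M 2 → ⋯` of Fréchet modules and morphisms, that
is, a complex with a contracting homotopy made of continuous linear maps. It is a coresolution of
`M 0` by `M 1`, `M 2`, and so on. -/
structure Coresolution where
  /-- the modules -/
  M : ℕ → FrechetModule.{u} A
  /-- the differentials -/
  d : ∀ n, LMap (M n) (M (n + 1))
  /-- the contracting homotopy -/
  s : ∀ n, LMap (M (n + 1)) (M n)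
  hom_d : ∀ n a x, (d n).app ((M n).act a x) = (M (n + 1)).act a ((d n).app x)
  d_d : ∀ n x, (d (n + 1)).app ((d n).app x) = 0
  s_d : ∀ x, (s 0).app ((d 0).app x) = x
  homotopy : ∀ n x, (d n).app ((s n).app x) + (s (n + 1)).app ((d (n + 1)).app x) = x

/-- `X` has a coresolution by injective Fréchet modules. -/
def HasInjectiveCoresolution (X : FrechetModule.{u} A) : Prop :=
  ∃ R : Coresolution.{u} A, R.M 0 = X ∧ ∀ n, Injective (R.M (n + 1))

/-- `X` has a coresolution by unital Fréchet modules that are injective among unital Fréchet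
modules. -/
def HasUInjectiveCoresolution {A : Type v} [Ring A] [Module ℂ A] [TopologicalSpace A]
    (X : FrechetModule.{u} A) : Prop :=
  ∃ R : Coresolution.{u} A, R.M 0 = X ∧ ∀ n, Unital (R.M (n + 1)) ∧ UInjective (R.M (n + 1))

theorem HasInjectiveCoresolution.embeds {X : FrechetModule.{u} A}
    (h : HasInjectiveCoresolution X) : ∃ (J : FrechetModule.{u} A) (φ : X.carrier →L[ℂ] J.carrier),
      Injective J ∧ IsHom X J φ ∧ Function.Injective φ := by
  obtain ⟨R, rfl, hR⟩ := h
  refine ⟨R.M 1, (R.d 0).clm, hR 0, R.hom_d 0, fun x y hxy => ?_⟩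
  rw [← R.s_d x, ← R.s_d y]
  exact congrArg (R.s 0).app hxy

end

theorem HasUInjectiveCoresolution.embeds {A : Type v} [Ring A] [Module ℂ A] [TopologicalSpace A]
    {X : FrechetModule.{u} A} (h : HasUInjectiveCoresolution X) :
    ∃ (J : FrechetModule.{u} A) (φ : X.carrier →L[ℂ] J.carrier),
      Unital J ∧ UInjective J ∧ IsHom X J φ ∧ Function.Injective φ := by
  obtain ⟨R, rfl, hR⟩ := h
  refine ⟨R.M 1, (R.d 0).clm, (hR 0).1, (hR 0).2, R.hom_d 0, fun x y hxy => ?_⟩
  rw [← R.s_d x, ← R.s_d y]
  exact congrArg (R.s 0).app hxy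

theorem not_subsingleton_of_embeds {X Y : Type*} {φ : X → Y} (hφ : Function.Injective φ)
    (hX : Nontrivial X) (h : Subsingleton Y) : False := by
  obtain ⟨x, y, hxy⟩ := hX
  exact hxy (hφ (Subsingleton.elim _ _))

end Pool.Agent.H474_Inj
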