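import Pool.Agent.H474_Inj.Hol

/-!
# Divided differences
-/

open Topology Filter TopologicalSpace

universe u v

namespace Pool.Agent.H474_Inj

section
variable {U : Opens ℂ}

/-- The coordinate function. -/
noncomputable def coordz : Hol U := mkz id differentiableOn_id

/-- Constants. -/
noncomputable def constz (c : ℂ) : Hol U := algebraMap ℂ (Hol U) c

theorem extz_coordz {z : ℂ} (hz : z ∈ U) : extz (coordz : Hol U) z = z := extz_mk _ _ hz

theorem extz_constz {z : ℂ} (hz : z ∈ U) (c : ℂ) : extz (constz c : Hol U) z = c := by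
  have h1 := extz_apply (constz c : Hol U) ⟨z, hz⟩
  exact h1

theorem extz_sub (f g : Hol U) (z : ℂ) : extz (f - g) z = extz f z - extz g z := by
  unfold extz
  split_ifs with h
  · rfl
  · simp

theorem extz_one {z : ℂ} (hz : z ∈ U) : extz (1 : Hol U) z = 1 := by
  have h1 := extz_apply (1 : Hol U) ⟨z, hz⟩
  exact h1

/-- Cancellation of a linear factor. -/
theorem cancelz (z : ℂ) {f g : Hol U}
    (h : (coordz - constz z) * f = (coordz - constz z) * g) : f = g := by
  have h1 : ∀ w ∈ U, w ≠ z → extz f w = extz g w := by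
    intro w hw hwz
    have h2 := congrArg (fun f => extz f w) h
    simp only [extz_mul, extz_sub, extz_coordz hw, extz_constz hw] at h2
    exact mul_left_cancel₀ (sub_ne_zero.2 hwz) h2
  refine extz_eq fun w hw => ?_
  by_cases hwz : w = z
  · subst hwz
    have hf : ContinuousAt (extz f) w :=
      (diff_extz f).continuousOn.continuousAt (U.isOpen.mem_nhds hw)
    have hg : ContinuousAt (extz g) w :=
      (diff_extz g).continuousOn.continuousAt (U.isOpen.mem_nhds hw)
    have hf' : Tendsto (extz f) (𝓝[≠] w) (𝓝 (extz f w)) := hf.mono_left nhdsWithin_le_nhds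
    have hg' : Tendsto (extz g) (𝓝[≠] w) (𝓝 (extz g w)) := hg.mono_left nhdsWithin_le_nhds
    refine tendsto_nhds_unique (hf'.congr' ?_) hg'
    filter_upwards [self_mem_nhdsWithin, mem_nhdsWithin_of_mem_nhds (U.isOpen.mem_nhds hw)]
      with x hx hxU
    exact h1 x hxU hx
  · exact h1 w hw hwz

/-- The divided difference `w ↦ (f w - f z) / (w - z)`. -/
noncomputable def ddz (z : ℂ) (f : Hol U) : Hol U :=
  mkz (dslope (extz f) z) (by
    by_cases hz : z ∈ U
    · exact (Complex.differentiableOn_dslope (U.isOpen.mem_nhds hz)).2 (diff_extz f)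
    · exact (differentiableOn_dslope_of_notMem hz).2 (diff_extz f))

theorem extz_ddz (z : ℂ) (f : Hol U) {w : ℂ} (hw : w ∈ U) :
    extz (ddz z f) w = dslope (extz f) z w := extz_mk _ _ hw

theorem mul_ddz (z : ℂ) (f : Hol U) :
    (coordz - constz z) * ddz z f = f - constz (extz f z) := by
  refine extz_eq fun w hw => ?_
  rw [extz_mul, extz_sub, extz_sub, extz_coordz hw, extz_constz hw, extz_constz hw, extz_ddz z f hw]
  exact sub_smul_dslope (extz f) z w

theorem constz_mul (a b : ℂ) : (constz (a * b) : Hol U) = constz a * constz b :=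
  map_mul (algebraMap ℂ (Hol U)) a b

theorem constz_sub (a b : ℂ) : (constz (a - b) : Hol U) = constz a - constz b :=
  map_sub (algebraMap ℂ (Hol U)) a b

theorem constz_add (a b : ℂ) : (constz (a + b) : Hol U) = constz a + constz b :=
  map_add (algebraMap ℂ (Hol U)) a b

theorem constz_smul (a : ℂ) (f : Hol U) : a • f = constz a * f := Algebra.smul_def a f

theorem ddz_mul (z : ℂ) (f g : Hol U) :
    ddz z (f * g) = constz (extz f z) * ddz z g + g * ddz z f := by
  apply cancelz z
  have h1 := mul_ddz z f
  have h2 := mul_ddz z g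
  have h3 := mul_ddz z (f * g)
  rw [extz_mul, constz_mul] at h3
  linear_combination h3 - constz (extz f z) * h2 - g * h1

theorem ddz_add (z : ℂ) (f g : Hol U) : ddz z (f + g) = ddz z f + ddz z g := by
  apply cancelz z
  have h1 := mul_ddz z f
  have h2 := mul_ddz z g
  have h3 := mul_ddz z (f + g)
  rw [extz_add, constz_add] at h3
  linear_combination h3 - h2 - h1

theorem ddz_smul (z c : ℂ) (f : Hol U) : ddz z (c • f) = c • ddz z f := by
  apply cancelz z
  have h1 := mul_ddz z f
  have h3 := mul_ddz z (c • f)
  rw [extz_smul, constz_mul] at h3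
  rw [constz_smul] at h3 ⊢
  rw [constz_smul]
  linear_combination h3 - constz c * h1

theorem ddz_sub_ddz {z z0 : ℂ} (hz : z ∈ U) (f : Hol U) :
    ddz z f - ddz z0 f = (z - z0) • ddz z (ddz z0 f) := by
  apply cancelz z
  apply cancelz z0
  have h1 := mul_ddz z f
  have h2 := mul_ddz z0 f
  have h3 := mul_ddz z (ddz z0 f)
  have h4 : (constz (z - z0) * constz (extz (ddz z0 f) z) : Hol U) =
      constz (extz f z) - constz (extz f z0) := by
    rw [← constz_mul, ← constz_sub, extz_ddz z0 f hz]
    exact congrArg constz (sub_smul_dslope (extz f) z0 z)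
  rw [constz_smul]
  rw [constz_sub] at h4 ⊢
  linear_combination (coordz - constz z0) * h1 - (coordz - constz z) * h2 -
    (constz z - constz z0) * (coordz - constz z0) * h3 + (coordz - constz z0) * h4 -
    (constz z - constz z0) * h2

theorem ddz_coordz (z : ℂ) (hz : z ∈ U) (c : ℂ) : ddz z (coordz - constz c : Hol U) = 1 := by
  apply cancelz z
  have h1 := mul_ddz z (coordz - constz c : Hol U)
  rw [extz_sub, extz_coordz hz, extz_constz hz, constz_sub] at h1
  linear_combination h1

end

end Pool.Agent.H474_Inj
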