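import Mathlib

/-!
# Fréchet algebras, Fréchet modules, injectivity (definitions)
-/

open Topology Filter

universe u v w

namespace Pool.Agent.H474_Inj

/-- A Fréchet space: a topological vector space over `ℂ` that is locally convex, metrizable and
complete (every Cauchy sequence converges). -/
class FrechetSpace (E : Type u) [AddCommGroup E] [Module ℂ E] [TopologicalSpace E] : Prop where
  add : IsTopologicalAddGroup E
  smul : ContinuousSMul ℂ E
  convex : LocallyConvexSpace ℝ E
  metrizable : TopologicalSpace.MetrizableSpace E
  complete : ∀ x : ℕ → E, Tendsto (fun p : ℕ × ℕ => x p.1 - x p.2) atTop (𝓝 0) →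
    ∃ l, Tendsto x atTop (𝓝 l)

/-- A Fréchet algebra, possibly without unit: a Fréchet space with an associative bilinear
multiplication that is jointly continuous. -/
class FrechetAlgebra (A : Type v) [NonUnitalRing A] [Module ℂ A] [TopologicalSpace A] :
    Prop where
  frechet : FrechetSpace A
  smul_mul : ∀ (c : ℂ) (a b : A), (c • a) * b = c • (a * b)
  mul_smul : ∀ (c : ℂ) (a b : A), a * (c • b) = c • (a * b)
  continuous_mul : Continuous fun p : A × A => p.1 * p.2

/-- A Fréchet left module over `A`: a Fréchet space with an associative bilinear action of `A`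
that is jointly continuous. (No unit is assumed, and none is required to act as the identity.) -/
structure FrechetModule (A : Type v) [NonUnitalRing A] [Module ℂ A] [TopologicalSpace A] where
  carrier : Type u
  [addCommGroup : AddCommGroup carrier]
  [module : Module ℂ carrier]
  [topology : TopologicalSpace carrier]
  [frechet : FrechetSpace carrier]
  act : A → carrier → carrier
  add_act : ∀ a b x, act (a + b) x = act a x + act b x
  act_add : ∀ a x y, act a (x + y) = act a x + act a y
  smul_act : ∀ (c : ℂ) (a : A) (x : carrier), act (c • a) x = c • act a x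
  act_smul : ∀ (c : ℂ) (a : A) (x : carrier), act a (c • x) = c • act a x
  mul_act : ∀ a b x, act (a * b) x = act a (act b x)
  continuous_act : Continuous fun p : A × carrier => act p.1 p.2

attribute [instance] FrechetModule.addCommGroup FrechetModule.module FrechetModule.topology
  FrechetModule.frechet

variable {A : Type v} [NonUnitalRing A] [Module ℂ A] [TopologicalSpace A]

/-- The continuous linear map `φ` is a morphism of `A`-modules. -/
def IsHom (X : FrechetModule.{u} A) (Y : FrechetModule.{w} A)
    (φ : X.carrier →L[ℂ] Y.carrier) : Prop :=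
  ∀ a x, φ (X.act a x) = Y.act a (φ x)

/-- `X` is an injective Fréchet `A`-module: every morphism from `X` to a Fréchet `A`-module that
has a continuous linear left inverse also has a continuous `A`-linear left inverse. -/
def Injective (X : FrechetModule.{u} A) : Prop :=
  ∀ (Y : FrechetModule.{u} A) (φ : X.carrier →L[ℂ] Y.carrier), IsHom X Y φ →
    (∃ ρ : Y.carrier →L[ℂ] X.carrier, ∀ x, ρ (φ x) = x) →
    ∃ ψ : Y.carrier →L[ℂ] X.carrier, IsHom Y X ψ ∧ ∀ x, ψ (φ x) = x

/-- The module over a unital algebra is unital. -/
def Unital {A : Type v} [Ring A] [Module ℂ A] [TopologicalSpace A] (X : FrechetModule.{u} A) :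
    Prop := ∀ x, X.act 1 x = x

/-- `X` is injective in the category of unital Fréchet `A`-modules. -/
def UInjective {A : Type v} [Ring A] [Module ℂ A] [TopologicalSpace A]
    (X : FrechetModule.{u} A) : Prop :=
  ∀ (Y : FrechetModule.{u} A), Unital Y → ∀ (φ : X.carrier →L[ℂ] Y.carrier), IsHom X Y φ →
    (∃ ρ : Y.carrier →L[ℂ] X.carrier, ∀ x, ρ (φ x) = x) →
    ∃ ψ : Y.carrier →L[ℂ] X.carrier, IsHom Y X ψ ∧ ∀ x, ψ (φ x) = x

end Pool.Agent.H474_Inj
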