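import Pool.Agent.H474_Inj.Basic

/-!
# Extension of morphisms into injective modules
-/

open Topology Filter

universe u v

namespace Pool.Agent.H474_Inj

instance instFA {A : Type v} [NonUnitalRing A] [Module ℂ A] [TopologicalSpace A]
    [h : FrechetAlgebra A] : FrechetSpace A := h.frechet

section
variable {A : Type v} [NonUnitalRing A] [Module ℂ A] [TopologicalSpace A]

theorem FrechetModule.zero_act (X : FrechetModule.{u} A) (x : X.carrier) : X.act 0 x = 0 := by
  have h := X.smul_act 0 0 x
  rwa [zero_smul, zero_smul] at h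

theorem FrechetModule.act_zero (X : FrechetModule.{u} A) (a : A) : X.act a 0 = 0 := by
  have h := X.act_smul 0 a 0
  rwa [zero_smul, zero_smul] at h

theorem FrechetModule.act_neg (X : FrechetModule.{u} A) (a : A) (x : X.carrier) :
    X.act a (-x) = - X.act a x := by
  have h := X.act_smul (-1) a x
  rwa [neg_one_smul, neg_one_smul] at h

theorem FrechetModule.act_sub (X : FrechetModule.{u} A) (a : A) (x y : X.carrier) :
    X.act a (x - y) = X.act a x - X.act a y := by
  rw [sub_eq_add_neg, X.act_add, X.act_neg, sub_eq_add_neg]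

theorem FrechetModule.neg_act (X : FrechetModule.{u} A) (a : A) (x : X.carrier) :
    X.act (-a) x = - X.act a x := by
  have h := X.smul_act (-1) a x
  rwa [neg_one_smul, neg_one_smul] at h

theorem FrechetModule.sub_act (X : FrechetModule.{u} A) (a b : A) (x : X.carrier) :
    X.act (a - b) x = X.act a x - X.act b x := by
  rw [sub_eq_add_neg, X.add_act, X.neg_act, sub_eq_add_neg]

end

section
variable {A : Type} [Ring A] [Module ℂ A] [TopologicalSpace A] [FrechetAlgebra A]

/-- The pushout of `ι : A → Z` and `A → J`, `a ↦ a x`, on the space `J × ker π`. -/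
noncomputable def pushout (J : FrechetModule.{u} A) (Z : FrechetModule.{0} A)
    (ι : A →L[ℂ] Z.carrier) (hι : ∀ a b, ι (a * b) = Z.act a (ι b))
    (π : Z.carrier →L[ℂ] A) (hπ : ∀ a, π (ι a) = a) (x : J.carrier) : FrechetModule.{u} A :=
  letI N : Submodule ℂ Z.carrier := LinearMap.ker (π : Z.carrier →ₗ[ℂ] A)
  haveI : FrechetSpace N := FrechetSpace.of_closedEmbedding N.subtype (by
    have hc : IsClosed (N : Set Z.carrier) := by
      have : (N : Set Z.carrier) = π ⁻¹' {0} := by
        ext z; simp [N]
      rw [this]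
      exact isClosed_singleton.preimage π.continuous
    exact hc.isClosedEmbedding_subtypeVal)
  { carrier := J.carrier × N
    act := fun a p => (J.act a p.1 + J.act (π (Z.act a p.2)) x,
      ⟨Z.act a p.2 - ι (π (Z.act a p.2)), by
        simp only [N, LinearMap.mem_ker, ContinuousLinearMap.coe_coe, map_sub, hπ, sub_self]⟩)
    add_act := by
      intro a b p
      refine Prod.ext ?_ (Subtype.ext ?_)
      · simp only [J.add_act, Z.add_act, map_add, Prod.fst_add]
        abel
      · simp only [Z.add_act, map_add, Prod.snd_add, Submodule.coe_add]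
        abel
    act_add := by
      intro a p q
      refine Prod.ext ?_ (Subtype.ext ?_)
      · simp only [J.act_add, Z.act_add, map_add, J.add_act, Prod.fst_add, Prod.snd_add,
          Submodule.coe_add]
        abel
      · simp only [Z.act_add, map_add, Prod.snd_add, Submodule.coe_add]
        abel
    smul_act := by
      intro c a p
      refine Prod.ext ?_ (Subtype.ext ?_)
      · simp only [J.smul_act, Z.smul_act, map_smul, Prod.smul_fst, smul_add]
      · simp only [Z.smul_act, map_smul, Prod.smul_snd, Submodule.coe_smul, smul_sub]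
    act_smul := by
      intro c a p
      refine Prod.ext ?_ (Subtype.ext ?_)
      · simp only [J.act_smul, J.smul_act, Z.act_smul, map_smul, Prod.smul_fst, Prod.smul_snd,
          Submodule.coe_smul, smul_add]
      · simp only [Z.act_smul, map_smul, Prod.smul_snd, Submodule.coe_smul, smul_sub]
    mul_act := by
      intro a b p
      have e : Z.act a (Z.act b p.2 - ι (π (Z.act b p.2))) =
          Z.act (a * b) p.2 - ι (a * π (Z.act b p.2)) := by
        rw [Z.act_sub, ← Z.mul_act, ← hι]
      refine Prod.ext ?_ (Subtype.ext ?_)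
      · simp only [e, map_sub, hπ, J.mul_act, J.act_add, J.sub_act]
        abel
      · simp only [e, map_sub, hπ]
        abel
    continuous_act := by
      have h1 : Continuous fun p : A × (J.carrier × N) => Z.act p.1 p.2.2 :=
        Z.continuous_act.comp (continuous_fst.prodMk
          (continuous_subtype_val.comp (continuous_snd.comp continuous_snd)))
      have h2 : Continuous fun p : A × (J.carrier × N) => π (Z.act p.1 p.2.2) :=
        π.continuous.comp h1
      refine Continuous.prodMk ?_ (Continuous.subtype_mk ?_ _)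
      · refine Continuous.add ?_ ?_
        · exact J.continuous_act.comp (continuous_fst.prodMk (continuous_fst.comp continuous_snd))
        · exact J.continuous_act.comp (h2.prodMk continuous_const)
      · exact h1.sub (ι.continuous.comp h2) }

/-- Extension of the morphism `A → J`, `a ↦ a x`, along an admissible monomorphism `A → Z`. -/
theorem extend (J : FrechetModule.{u} A) (hJ1 : Unital J) (hJ : UInjective J)
    (Z : FrechetModule.{0} A) (hZ : Unital Z)
    (ι : A →L[ℂ] Z.carrier) (hι : ∀ a b, ι (a * b) = Z.act a (ι b))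
    (π : Z.carrier →L[ℂ] A) (hπ : ∀ a, π (ι a) = a) (x : J.carrier) :
    ∃ θ : Z.carrier →L[ℂ] J.carrier, IsHom Z J θ ∧ θ (ι 1) = x := by
  classical
  set N : Submodule ℂ Z.carrier := LinearMap.ker (π : Z.carrier →ₗ[ℂ] A) with hN
  set Y := pushout J Z ι hι π hπ x with hY
  have hYu : Unital Y := by
    intro p
    have hp : π (p.2 : Z.carrier) = 0 := p.2.2
    refine Prod.ext ?_ (Subtype.ext ?_)
    · show J.act 1 p.1 + J.act (π (Z.act 1 (p.2 : Z.carrier))) x = p.1
      rw [hJ1, hZ, hp, J.zero_act, add_zero]
    · show Z.act 1 (p.2 : Z.carrier) - ι (π (Z.act 1 (p.2 : Z.carrier))) = p.2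
      rw [hZ, hp, map_zero, sub_zero]
  obtain ⟨ψ, hψ, hψ1⟩ := hJ Y hYu (ContinuousLinearMap.inl ℂ J.carrier N) (by
    intro a y
    refine Prod.ext ?_ (Subtype.ext ?_)
    · show J.act a y = J.act a y + J.act (π (Z.act a (0 : Z.carrier))) x
      rw [Z.act_zero, map_zero, J.zero_act, add_zero]
    · show (0 : Z.carrier) = Z.act a (0 : Z.carrier) - ι (π (Z.act a (0 : Z.carrier)))
      rw [Z.act_zero, map_zero, map_zero, sub_zero])
    ⟨ContinuousLinearMap.fst ℂ J.carrier N, fun y => rfl⟩
  -- the element of the kernel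
  have hk : ∀ z : Z.carrier, z - ι (π z) ∈ N := by
    intro z
    simp only [hN, LinearMap.mem_ker, ContinuousLinearMap.coe_coe, map_sub, hπ, sub_self]
  have hadd : ∀ p q : J.carrier × N, ψ (p + q) = ψ p + ψ q := fun p q => map_add ψ p q
  have hsmul : ∀ (c : ℂ) (p : J.carrier × N), ψ (c • p) = c • ψ p := fun c p => map_smul ψ c p
  have hcont : Continuous fun p : J.carrier × N => ψ p := ψ.continuous
  have hψ2 : ∀ y : J.carrier, ψ ((y, 0) : J.carrier × N) = y := fun y => hψ1 y
  let θ : Z.carrier →L[ℂ] J.carrier :=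
    { toFun := fun z => J.act (π z) x + ψ ((0, ⟨z - ι (π z), hk z⟩) : J.carrier × N)
      map_add' := by
        intro z w
        have e : ((0, ⟨z + w - ι (π (z + w)), hk (z + w)⟩) : J.carrier × N) =
            (0, ⟨z - ι (π z), hk z⟩) + (0, ⟨w - ι (π w), hk w⟩) := by
          refine Prod.ext ?_ (Subtype.ext ?_)
          · simp
          · simp only [Prod.snd_add, Submodule.coe_add, map_add]
            abel
        rw [e, hadd, map_add, J.add_act]
        abel
      map_smul' := by
        intro c z
        have e : ((0, ⟨c • z - ι (π (c • z)), hk (c • z)⟩) : J.carrier × N) =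
            c • (0, ⟨z - ι (π z), hk z⟩) := by
          refine Prod.ext ?_ (Subtype.ext ?_)
          · simp
          · simp only [Prod.smul_snd, Submodule.coe_smul, map_smul, smul_sub]
        rw [e, hsmul, map_smul, J.smul_act, RingHom.id_apply, smul_add]
      cont := by
        refine Continuous.add ?_ ?_
        · exact J.continuous_act.comp (π.continuous.prodMk continuous_const)
        · refine hcont.comp (continuous_const.prodMk (Continuous.subtype_mk ?_ _))
          exact continuous_id.sub (ι.continuous.comp π.continuous) }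
  have hθ : ∀ z, θ z = J.act (π z) x + ψ ((0, ⟨z - ι (π z), hk z⟩) : J.carrier × N) :=
    fun z => rfl
  refine ⟨θ, ?_, ?_⟩
  · intro a z
    have h1 := hψ a ((0, ⟨z - ι (π z), hk z⟩) : J.carrier × N)
    have e : Y.act a ((0, ⟨z - ι (π z), hk z⟩) : J.carrier × N) =
        ((J.act (π (Z.act a z) - a * π z) x, 0) : J.carrier × N) +
          ((0, ⟨Z.act a z - ι (π (Z.act a z)), hk (Z.act a z)⟩) : J.carrier × N) := by
      refine Prod.ext ?_ (Subtype.ext ?_)
      · show J.act a 0 + J.act (π (Z.act a (z - ι (π z)))) x =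
          J.act (π (Z.act a z) - a * π z) x + 0
        rw [J.act_zero, zero_add, add_zero, Z.act_sub, ← hι, map_sub, hπ]
      · show Z.act a (z - ι (π z)) - ι (π (Z.act a (z - ι (π z)))) =
          (0 : Z.carrier) + (Z.act a z - ι (π (Z.act a z)))
        rw [Z.act_sub, ← hι, map_sub, hπ, map_sub]
        abel
    rw [e, hadd, hψ2] at h1
    rw [hθ, hθ, J.act_add, ← h1, J.sub_act, J.mul_act]
    abel
  · have e2 : ((0, ⟨ι 1 - ι (π (ι 1)), hk (ι 1)⟩) : J.carrier × N) = 0 := by
      refine Prod.ext rfl (Subtype.ext ?_)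
      simp [hπ]
    have h0 : ψ (0 : J.carrier × N) = 0 := map_zero ψ
    have h1 := hθ (ι 1)
    rw [e2, h0, add_zero] at h1
    rw [h1, hπ, hJ1]

/-- The criterion: if `1` can be divided, in admissible extensions of `A`, by elements of `A` that
are arbitrarily small relative to the quotients, there is no nonzero injective module. -/
theorem vanish
    (hA : ∀ U ∈ 𝓝 (0 : A), ∃ (Z : FrechetModule.{0} A) (ι : A →L[ℂ] Z.carrier)
      (π : Z.carrier →L[ℂ] A) (a : ℕ → A) (z : ℕ → Z.carrier) (t : ℕ → ℂ), Unital Z ∧
      (∀ a b, ι (a * b) = Z.act a (ι b)) ∧ (∀ a, π (ι a) = a) ∧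
      (∀ n, Z.act (a n) (z n) = ι 1) ∧ (∀ n, t n ≠ 0) ∧ (∀ᶠ n in atTop, t n • a n ∈ U) ∧
      Tendsto (fun n => (t n)⁻¹ • z n) atTop (𝓝 0))
    (J : FrechetModule.{u} A) (hJ1 : Unital J) (hJ : UInjective J) : Subsingleton J.carrier := by
  have key : ∀ x : J.carrier, x = 0 := by
    intro x
    by_contra hx
    have hW : ({x}ᶜ : Set J.carrier) ∈ 𝓝 (0 : J.carrier) :=
      isOpen_compl_singleton.mem_nhds (fun h => hx h.symm)
    have hc := J.continuous_act.tendsto ((0 : A), (0 : J.carrier))
    simp only [J.zero_act] at hc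
    have h1 := hc hW
    rw [Filter.mem_map, nhds_prod_eq, Filter.mem_prod_iff] at h1
    obtain ⟨U, hU, V, hV, hUV⟩ := h1
    obtain ⟨Z, ι, π, a, z, t, hZ, hι, hπ, haz, ht, htU, htz⟩ := hA U hU
    obtain ⟨θ, hθ, hθ1⟩ := extend J hJ1 hJ Z hZ ι hι π hπ x
    have h2 : Tendsto (fun n => θ ((t n)⁻¹ • z n)) atTop (𝓝 0) := by
      have := (θ.continuous.tendsto 0).comp htz
      rwa [map_zero] at this
    obtain ⟨n, hn1, hn2⟩ := (htU.and (h2.eventually hV)).exists
    have h3 := hUV (Set.mk_mem_prod hn1 hn2)
    apply h3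
    show J.act (t n • a n) (θ ((t n)⁻¹ • z n)) = x
    rw [map_smul, J.smul_act, J.act_smul, smul_smul, mul_inv_cancel₀ (ht n), one_smul, ← hθ, haz,
      hθ1]
  exact ⟨fun x y => by rw [key x, key y]⟩

end

end Pool.Agent.H474_Inj
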