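import Pool.Agent.H474_Inj.Trans

/-!
# The Fréchet algebra of holomorphic functions on an open subset of the complex plane
-/

open Topology Filter TopologicalSpace

universe u v

namespace Pool.Agent.H474_Inj

/-- The algebra `O(U)` of holomorphic functions on the open set `U` of the complex plane, as a
subalgebra of the algebra `C(U, ℂ)` of continuous functions, with the topology of uniform
convergence on compact subsets of `U` (the compact-open topology). -/
def Hol (U : Opens ℂ) : Subalgebra ℂ C(U, ℂ) where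
  carrier := {f | ∃ F : ℂ → ℂ, DifferentiableOn ℂ F U ∧ ∀ z : U, f z = F z}
  mul_mem' := by
    rintro f g ⟨F, hF, hf⟩ ⟨G, hG, hg⟩
    exact ⟨F * G, hF.mul hG, fun z => by simp [hf, hg]⟩
  add_mem' := by
    rintro f g ⟨F, hF, hf⟩ ⟨G, hG, hg⟩
    exact ⟨F + G, hF.add hG, fun z => by simp [hf, hg]⟩
  algebraMap_mem' := fun c => ⟨fun _ => c, differentiableOn_const c, fun z => rfl⟩

instance instLC (U : Opens ℂ) : LocallyCompactSpace U := U.isOpen.locallyCompactSpace

theorem tendsto_zero_iff {U : Opens ℂ} {α : Type*} {l : Filter α} {F : α → C(U, ℂ)} :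
    Tendsto F l (𝓝 0) ↔ ∀ K : Set U, IsCompact K → ∀ ε > 0, ∀ᶠ i in l, ∀ z ∈ K, ‖F i z‖ < ε := by
  rw [ContinuousMap.tendsto_iff_forall_isCompact_tendstoUniformlyOn]
  refine forall_congr' fun K => forall_congr' fun _ => ?_
  rw [Metric.tendstoUniformlyOn_iff]
  simp only [ContinuousMap.coe_zero, Pi.zero_apply, dist_zero_left]

instance instCont (U : Opens ℂ) : FrechetSpace C(U, ℂ) where
  add := inferInstance
  smul := inferInstance
  convex := inferInstance
  metrizable := inferInstance
  complete := by
    intro x hx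
    have h1 : CauchySeq x := by
      rw [cauchySeq_iff_tendsto,
        ContinuousMap.hasBasis_compactConvergenceUniformity.tendsto_right_iff]
      rintro ⟨K, V⟩ ⟨hK, hV⟩
      obtain ⟨ε, hε, hεV⟩ := Metric.mem_uniformity_dist.1 hV
      filter_upwards [tendsto_zero_iff.1 hx K hK ε hε] with p hp z hz
      refine hεV ?_
      rw [dist_eq_norm]
      exact hp z hz
    exact cauchySeq_tendsto_of_complete h1

section
variable {U : Opens ℂ}

/-- The extension by zero of a holomorphic function. -/
noncomputable def extz (f : Hol U) (z : ℂ) : ℂ :=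
  open Classical in if h : z ∈ U then f.1 ⟨z, h⟩ else 0

theorem extz_apply (f : Hol U) (z : U) : extz f z = f.1 z := by
  unfold extz
  rw [dif_pos z.2]

theorem diff_extz (f : Hol U) : DifferentiableOn ℂ (extz f) U := by
  obtain ⟨F, hF, hf⟩ := f.2
  refine hF.congr fun z hz => ?_
  have h1 := extz_apply f ⟨z, hz⟩
  rw [hf] at h1
  exact h1

/-- The element of the algebra given by a holomorphic function. -/
def mkz (F : ℂ → ℂ) (hF : DifferentiableOn ℂ F U) : Hol U :=
  ⟨⟨fun z => F z, hF.continuousOn.domRestrict⟩, F, hF, fun _ => rfl⟩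

theorem mkz_apply (F : ℂ → ℂ) (hF : DifferentiableOn ℂ F U) (z : U) : (mkz F hF).1 z = F z :=
  rfl

theorem extz_mk (F : ℂ → ℂ) (hF : DifferentiableOn ℂ F U) {z : ℂ} (hz : z ∈ U) :
    extz (mkz F hF) z = F z := by
  have h1 := extz_apply (mkz F hF) ⟨z, hz⟩
  exact h1

theorem extz_eq {f g : Hol U} (h : ∀ z ∈ U, extz f z = extz g z) : f = g := by
  refine Subtype.ext (ContinuousMap.ext fun z => ?_)
  rw [← extz_apply, ← extz_apply, h z z.2]

theorem extz_add (f g : Hol U) (z : ℂ) : extz (f + g) z = extz f z + extz g z := by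
  unfold extz
  split_ifs with h
  · rfl
  · simp

theorem extz_mul (f g : Hol U) (z : ℂ) : extz (f * g) z = extz f z * extz g z := by
  unfold extz
  split_ifs with h
  · rfl
  · simp

theorem extz_smul (c : ℂ) (f : Hol U) (z : ℂ) : extz (c • f) z = c * extz f z := by
  unfold extz
  split_ifs with h
  · rfl
  · simp

theorem isClosed_hol (U : Opens ℂ) : IsClosed ((Hol U : Subalgebra ℂ C(U, ℂ)) : Set C(U, ℂ)) := by
  apply IsSeqClosed.isClosed
  intro f g hf hg
  have h1 := (ContinuousMap.tendsto_iff_tendstoLocallyUniformly).1 hg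
  have h2 : TendstoLocallyUniformlyOn (fun n => extz ⟨f n, hf n⟩)
      (fun z => open Classical in if h : z ∈ U then g ⟨z, h⟩ else 0) atTop U := by
    rw [tendstoLocallyUniformlyOn_iff_tendstoLocallyUniformly_comp_coe]
    have e1 : (fun (n : ℕ) (x : U) => extz ⟨f n, hf n⟩ (x : ℂ)) = fun n x => f n x := by
      funext n x
      exact extz_apply ⟨f n, hf n⟩ x
    have e2 : (fun z => open Classical in if h : z ∈ U then g ⟨z, h⟩ else 0) ∘
        (Subtype.val : U → ℂ) = g := by
      funext x
      show (open Classical in if h : (x : ℂ) ∈ U then g ⟨x, h⟩ else 0) = g x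
      rw [dif_pos x.2]
    have h3 : TendstoLocallyUniformly (fun (n : ℕ) (x : U) => extz ⟨f n, hf n⟩ (x : ℂ))
        ((fun z => open Classical in if h : z ∈ U then g ⟨z, h⟩ else 0) ∘
        (Subtype.val : U → ℂ)) atTop := by
      rw [e1, e2]
      exact h1
    exact h3
  refine ⟨_, h2.differentiableOn (Eventually.of_forall fun n =>
    diff_extz ⟨f n, hf n⟩) U.isOpen, fun z => ?_⟩
  rw [dif_pos z.2]

instance instHol : FrechetAlgebra (Hol U) where
  frechet := FrechetSpace.of_closedEmbedding (E := C(U, ℂ)) (Hol U).toSubmodule.subtype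
    (isClosed_hol U).isClosedEmbedding_subtypeVal
  smul_mul c a b := smul_mul_assoc c a b
  mul_smul c a b := mul_smul_comm c a b
  continuous_mul := continuous_mul

end

end Pool.Agent.H474_Inj
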