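import Pool.Agent.H474_Inj.HolMod3

/-!
# Holomorphy of the evaluation functionals, extension of functionals
-/

open Topology Filter TopologicalSpace

universe u v

namespace Pool.Agent.H474_Inj

/-- A functional dominated by a seminorm `‖R v‖` factors through `R`. -/
theorem exists_functional {V : Type u} {W : Type v} [AddCommGroup V] [Module ℂ V]
    [NormedAddCommGroup W] [NormedSpace ℂ W] (R : V →ₗ[ℂ] W) (T : V →ₗ[ℂ] ℂ) (C : ℝ) (hC : 0 ≤ C)
    (h : ∀ v, ‖T v‖ ≤ C * ‖R v‖) : ∃ M : W →L[ℂ] ℂ, ∀ v, M (R v) = T v := by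
  have hker : LinearMap.ker R ≤ LinearMap.ker T := by
    intro v hv
    rw [LinearMap.mem_ker] at hv ⊢
    have h1 := h v
    rw [hv, norm_zero, mul_zero] at h1
    exact norm_le_zero_iff.1 h1
  let f : LinearMap.range R →ₗ[ℂ] ℂ :=
    ((LinearMap.ker R).liftQ T hker).comp R.quotKerEquivRange.symm.toLinearMap
  have hf : ∀ v, f ⟨R v, v, rfl⟩ = T v := by
    intro v
    show (LinearMap.ker R).liftQ T hker (R.quotKerEquivRange.symm ⟨R v, v, rfl⟩) = T v
    have h1 : R.quotKerEquivRange.symm ⟨R v, v, rfl⟩ = (LinearMap.ker R).mkQ v := by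
      rw [LinearEquiv.symm_apply_eq]
      rfl
    rw [h1]
    exact Submodule.liftQ_apply _ _ _
  let p : Seminorm ℂ W := C.toNNReal • normSeminorm ℂ W
  have hp : ∀ w, p w = C * ‖w‖ := by
    intro w
    show (C.toNNReal : ℝ) * ‖w‖ = C * ‖w‖
    rw [Real.coe_toNNReal C hC]
  obtain ⟨g, hg1, hg2⟩ := Module.Dual.exists_extension_of_le_seminorm (LinearMap.range R) f
    (p := p) (by
      rintro ⟨_, v, rfl⟩
      rw [hf, hp]
      exact h v)
  simp only [hp] at hg2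
  refine ⟨g.mkContinuous C hg2, fun v => ?_⟩
  rw [← hf v]
  exact hg1 ⟨R v, v, rfl⟩

section
variable {U : Opens ℂ}

theorem ddz_bound_interior (L : Compacts ℂ) (hL : (L : Set ℂ) ⊆ U) {l0 : ℂ} {r : ℝ} (hr : 0 < r)
    (hrL : Metric.closedBall l0 r ⊆ L) (f : Hol U) :
    ‖RL L hL (ddz l0 f)‖ ≤ 2 / r * ‖RL L hL f‖ := by
  rw [norm_RL, norm_RL]
  refine norm_rest_le L hL _ (by positivity) fun w hw => ?_
  have hl0 : l0 ∈ L := hrL (Metric.mem_closedBall_self hr.le)
  by_cases hw2 : r ≤ ‖w - l0‖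
  · exact norm_ddz_le_of_le hr hw2 f (hL hw) (norm_extz_le L hL f hl0) (norm_extz_le L hL f hw)
  · push Not at hw2
    refine Complex.norm_le_of_forall_mem_frontier_norm_le (f := extz (ddz l0 f))
      (U := Metric.ball l0 r) Metric.isBounded_ball ?_ ?_
      (subset_closure (by rwa [Metric.mem_ball, dist_eq_norm]))
    · refine DifferentiableOn.diffContOnCl ?_
      refine (diff_extz (ddz l0 f)).mono ?_
      exact (Metric.closure_ball_subset_closedBall.trans hrL).trans hL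
    · intro v hv
      rw [frontier_ball l0 hr.ne'] at hv
      have hv1 : r ≤ ‖v - l0‖ := by
        rw [← dist_eq_norm]
        exact (Metric.mem_sphere.1 hv).ge
      have hv2 : v ∈ L := hrL (Metric.sphere_subset_closedBall hv)
      exact norm_ddz_le_of_le hr hv1 f (hL hv2) (norm_extz_le L hL f hl0)
        (norm_extz_le L hL f hv2)

/-- The divided difference at an interior point as an operator on restrictions. -/
theorem exists_Q (L : Compacts ℂ) (hL : (L : Set ℂ) ⊆ U) {l0 : ℂ} {r : ℝ} (hr : 0 < r)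
    (hrL : Metric.closedBall l0 r ⊆ L) :
    ∃ Q : PL L hL →L[ℂ] PL L hL, ∀ f, Q (RL L hL f) = RL L hL (ddz l0 f) := by
  have h0 : ∀ f, RL L hL f = 0 → RL L hL (ddz l0 f) = 0 := by
    intro f hf
    have h1 := ddz_bound_interior L hL hr hrL f
    rw [hf, norm_zero, mul_zero] at h1
    exact norm_le_zero_iff.1 h1
  choose s hs using RL_surjective L hL
  have hQ : ∀ f, RL L hL (ddz l0 (s (RL L hL f))) = RL L hL (ddz l0 f) := by
    intro f
    have h1 : RL L hL (s (RL L hL f) + (-1 : ℂ) • f) = 0 := by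
      rw [map_add, map_smul, hs, neg_one_smul, add_neg_cancel]
    have h2 := h0 _ h1
    rw [ddz_add, ddz_smul, map_add, map_smul, neg_one_smul] at h2
    exact eq_of_sub_eq_zero (by rw [sub_eq_add_neg]; exact h2)
  refine ⟨LinearMap.mkContinuous
    { toFun := fun x => RL L hL (ddz l0 (s x))
      map_add' := fun x y => ?_
      map_smul' := fun c x => ?_ } (2 / r) fun x => ?_, fun f => hQ f⟩
  · obtain ⟨f, rfl⟩ := RL_surjective L hL x
    obtain ⟨g, rfl⟩ := RL_surjective L hL y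
    rw [← map_add, hQ, hQ, hQ, ddz_add, map_add]
  · obtain ⟨f, rfl⟩ := RL_surjective L hL x
    rw [← map_smul, hQ, hQ, ddz_smul, map_smul, RingHom.id_apply]
  · obtain ⟨f, rfl⟩ := RL_surjective L hL x
    show ‖RL L hL (ddz l0 (s (RL L hL f)))‖ ≤ 2 / r * ‖RL L hL f‖
    rw [hQ]
    exact ddz_bound_interior L hL hr hrL f

/-- The function `l ↦ Φ(δ_l)`. -/
noncomputable def evfun (L : Compacts ℂ) (hL : (L : Set ℂ) ⊆ U)
    (Φ : StrongDual ℂ (PL L hL) →L[ℂ] ℂ) (l : ℂ) : ℂ :=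
  open Classical in if h : l ∈ L then Φ (evL L hL ⟨l, h⟩) else 0

theorem evfun_differentiableAt (L : Compacts ℂ) (hL : (L : Set ℂ) ⊆ U)
    (Φ : StrongDual ℂ (PL L hL) →L[ℂ] ℂ) {l0 : ℂ} (h0 : l0 ∈ interior (L : Set ℂ)) :
    DifferentiableAt ℂ (evfun L hL Φ) l0 := by
  obtain ⟨r, hr, hrL⟩ := Metric.nhds_basis_closedBall.mem_iff.1 (mem_interior_iff_mem_nhds.1 h0)
  obtain ⟨Q, hQ⟩ := exists_Q L hL hr hrL
  have hl0 : l0 ∈ L := interior_subset h0
  have key : ∀ l : L, evL L hL l - evL L hL ⟨l0, hl0⟩ =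
      ((l : ℂ) - l0) • (evL L hL l).comp Q := by
    intro l
    ext x
    obtain ⟨f, rfl⟩ := RL_surjective L hL x
    show evL L hL l (RL L hL f) - evL L hL ⟨l0, hl0⟩ (RL L hL f) =
      ((l : ℂ) - l0) * evL L hL l (Q (RL L hL f))
    rw [hQ, evL_apply, evL_apply, evL_apply, extz_ddz l0 f (hL l.2)]
    exact (sub_smul_dslope (extz f) l0 (l : ℂ)).symm
  have hn : ∀ l : L, ‖(evL L hL l).comp Q‖ ≤ ‖Q‖ := by
    intro l
    refine (ContinuousLinearMap.opNorm_comp_le _ _).trans ?_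
    calc ‖evL L hL l‖ * ‖Q‖ ≤ 1 * ‖Q‖ :=
          mul_le_mul_of_nonneg_right (norm_evL_le L hL l) (norm_nonneg _)
      _ = ‖Q‖ := one_mul _
  -- the derivative
  refine HasDerivAt.differentiableAt (f' := Φ ((evL L hL ⟨l0, hl0⟩).comp Q)) ?_
  rw [hasDerivAt_iff_tendsto_slope, tendsto_iff_norm_sub_tendsto_zero]
  have h2 : Tendsto (fun z : ℂ => ‖z - l0‖ * (‖Φ‖ * (‖Q‖ * ‖Q‖))) (𝓝[≠] l0) (𝓝 0) := by
    have h3 : Continuous fun z : ℂ => ‖z - l0‖ * (‖Φ‖ * (‖Q‖ * ‖Q‖)) := by fun_prop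
    have h4 := h3.tendsto l0
    rw [sub_self, norm_zero, zero_mul] at h4
    exact h4.mono_left nhdsWithin_le_nhds
  refine squeeze_zero' (Eventually.of_forall fun z => norm_nonneg _) ?_ h2
  filter_upwards [self_mem_nhdsWithin, mem_nhdsWithin_of_mem_nhds (mem_interior_iff_mem_nhds.1 h0)]
    with z hz hzL
  have e1 : evfun L hL Φ z = Φ (evL L hL ⟨z, hzL⟩) := dif_pos hzL
  have e2 : evfun L hL Φ l0 = Φ (evL L hL ⟨l0, hl0⟩) := dif_pos hl0
  have e3 : slope (evfun L hL Φ) l0 z = Φ ((evL L hL ⟨z, hzL⟩).comp Q) := by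
    rw [slope_def_field, e1, e2, ← map_sub, key ⟨z, hzL⟩, map_smul, smul_eq_mul,
      mul_div_cancel_left₀ _ (sub_ne_zero.2 hz)]
  have e4 : (evL L hL ⟨z, hzL⟩).comp Q - (evL L hL ⟨l0, hl0⟩).comp Q =
      (z - l0) • ((evL L hL ⟨z, hzL⟩).comp Q).comp Q := by
    rw [← ContinuousLinearMap.sub_comp, key ⟨z, hzL⟩, ContinuousLinearMap.smul_comp]
  rw [e3, ← map_sub, e4, map_smul, norm_smul]
  refine mul_le_mul_of_nonneg_left ?_ (norm_nonneg _)
  refine (Φ.le_opNorm _).trans (mul_le_mul_of_nonneg_left ?_ (norm_nonneg _))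
  exact (ContinuousLinearMap.opNorm_comp_le _ _).trans
    (mul_le_mul_of_nonneg_right (hn _) (norm_nonneg _))

end

end Pool.Agent.H474_Inj
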