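import Pool.Agent.H474_Inj.Ext

/-!
# Trivial modules and algebras with zero multiplication
-/

open Topology Filter

universe u v w

namespace Pool.Agent.H474_Inj

section
variable {E : Type u} [AddCommGroup E] [Module ℂ E]

theorem seminorm_bound (q : Seminorm ℂ E) (S : Set E)
    (h : ∀ f : E →ₗ[ℂ] ℂ, (∃ C : ℝ, ∀ x, ‖f x‖ ≤ C * q x) → ∃ C : ℝ, ∀ a ∈ S, ‖f a‖ ≤ C) :
    ∃ r : ℝ, ∀ x ∈ S, q x ≤ r := by
  let : SeminormedAddCommGroup E :=
    AddGroupSeminorm.toSeminormedAddCommGroup q.toAddGroupSeminorm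
  let : NormedSpace ℂ E := ⟨fun c x => (map_smul_eq_mul q c x).le⟩
  have hn : ∀ x : E, ‖x‖ = q x := fun x => rfl
  obtain ⟨C', hC'⟩ := banach_steinhaus
    (g := fun x : S => NormedSpace.inclusionInDoubleDual ℂ E (x : E)) (by
      intro f
      obtain ⟨C, hC⟩ := h f.toLinearMap ⟨‖f‖, fun x => f.le_opNorm x⟩
      exact ⟨C, fun x => hC x x.2⟩)
  refine ⟨C', fun x hx => ?_⟩
  obtain ⟨g, hg1, hg2⟩ := exists_dual_vector'' ℂ x
  have h1 : ‖NormedSpace.inclusionInDoubleDual ℂ E x g‖ ≤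
      ‖NormedSpace.inclusionInDoubleDual ℂ E x‖ * ‖g‖ := ContinuousLinearMap.le_opNorm _ _
  have h2 : NormedSpace.inclusionInDoubleDual ℂ E x g = (‖x‖ : ℂ) := hg2
  rw [h2] at h1
  have h3 := hC' ⟨x, hx⟩
  have h4 : ‖((‖x‖ : ℝ) : ℂ)‖ = ‖x‖ := by simp
  have h5 : ‖((‖x‖ : ℝ) : ℂ)‖ ≤ C' * 1 :=
    h1.trans (mul_le_mul h3 hg1 (norm_nonneg _) ((norm_nonneg _).trans h3))
  rw [h4, hn, mul_one] at h5
  exact h5

end

section
variable {E : Type u} [AddCommGroup E] [Module ℂ E] [TopologicalSpace E] [hE : FrechetSpace E]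

theorem continuousSMul_real : ContinuousSMul ℝ E := by
  refine ⟨?_⟩
  have h1 : (fun p : ℝ × E => p.1 • p.2) = fun p : ℝ × E => ((p.1 : ℝ) : ℂ) • p.2 := by
    funext p
    rw [Complex.coe_smul]
  rw [h1]
  exact (Complex.continuous_ofReal.comp continuous_fst).smul continuous_snd

open scoped ComplexOrder in
theorem polynormable : PolynormableSpace ℂ E := by
  have : LocallyConvexSpace ℂ E := by
    rw [locallyConvexSpace_iff_exists_convex_subset]
    intro x U hU
    obtain ⟨S, hS, hS1, hS2⟩ :=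
      (locallyConvexSpace_iff_exists_convex_subset ℝ E).1 hE.convex x U hU
    refine ⟨S, hS, ?_, hS2⟩
    intro x hx y hy a b ha hb hab
    obtain ⟨a', ha', rfl⟩ := RCLike.nonneg_iff_exists_ofReal.mp ha
    obtain ⟨b', hb', rfl⟩ := RCLike.nonneg_iff_exists_ofReal.mp hb
    have hab' : a' + b' = 1 := by
      have h1 := congrArg Complex.re hab
      simpa using h1
    have := hS1 hx hy ha' hb' hab'
    rwa [← Complex.coe_smul, ← Complex.coe_smul] at this
  have := continuousSMul_real (E := E)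
  exact LocallyConvexSpace.toPolynormableSpace

/-- Weakly bounded sets in a Fréchet space are bounded. -/
theorem mackey (S : Set E) (h : ∀ β : E →L[ℂ] ℂ, ∃ C : ℝ, ∀ a ∈ S, ‖β a‖ ≤ C) :
    Bornology.IsVonNBounded ℂ S := by
  have : PolynormableSpace ℂ E := polynormable
  rw [(PolynormableSpace.withSeminorms ℂ E).isVonNBounded_iff_seminorm_bounded]
  rintro ⟨q, hq⟩
  obtain ⟨r, hr⟩ := seminorm_bound q S (by
    rintro f ⟨C, hC⟩
    have hf : Continuous f := by
      refine continuous_of_continuousAt_zero f ?_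
      unfold ContinuousAt
      rw [map_zero]
      refine squeeze_zero_norm hC ?_
      have h1 : Tendsto (fun x => C * q x) (𝓝 0) (𝓝 (C * q 0)) := (hq.tendsto 0).const_mul C
      rwa [map_zero, mul_zero] at h1
    exact h ⟨f, hf⟩)
  exact ⟨|r| + 1, by positivity, fun x hx => (hr x hx).trans_lt (by
    linarith [le_abs_self r])⟩

theorem exists_dual (x : E) (hx : x ≠ 0) : ∃ l : E →L[ℂ] ℂ, l x ≠ 0 := by
  have := continuousSMul_real (E := E)
  obtain ⟨f, hf⟩ := RCLike.geometric_hahn_banach_point_point (𝕜 := ℂ) hx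
  refine ⟨f, fun h => ?_⟩
  rw [h, map_zero, map_zero, map_zero] at hf
  exact lt_irrefl _ hf

end

section
variable {A : Type v} [NonUnitalRing A] [Module ℂ A] [TopologicalSpace A] [hA : FrechetAlgebra A]

/-- The extension of `J` by a one-dimensional trivial module given by a functional that vanishes on
all products. -/
noncomputable def twist (J : FrechetModule.{u} A) (x0 : J.carrier) (hx0 : ∀ a, J.act a x0 = 0)
    (β : A →L[ℂ] ℂ) (hβ : ∀ a b, β (a * b) = 0) : FrechetModule.{u} A where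
  carrier := J.carrier × ℂ
  act a p := (J.act a p.1 + (p.2 * β a) • x0, 0)
  add_act a b p := by
    refine Prod.ext ?_ ?_
    · simp only [J.add_act, map_add, mul_add, add_smul, Prod.fst_add]
      abel
    · simp
  act_add a p q := by
    refine Prod.ext ?_ ?_
    · simp only [J.act_add, add_mul, add_smul, Prod.fst_add, Prod.snd_add]
      abel
    · simp
  smul_act c a p := by
    refine Prod.ext ?_ ?_
    · simp only [J.smul_act, map_smul, Prod.smul_fst, smul_add, smul_smul, smul_eq_mul]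
      rw [mul_left_comm]
    · simp
  act_smul c a p := by
    refine Prod.ext ?_ ?_
    · simp only [J.act_smul, Prod.smul_fst, Prod.smul_snd, smul_add, smul_smul, smul_eq_mul,
        mul_assoc]
    · simp
  mul_act a b p := by
    refine Prod.ext ?_ ?_
    · simp only [hβ, J.mul_act, J.act_add, J.act_smul, hx0, smul_zero, mul_zero, zero_mul,
        zero_smul, add_zero]
    · simp
  continuous_act := by
    refine Continuous.prodMk (Continuous.add ?_ ?_) continuous_const
    · exact J.continuous_act.comp (continuous_fst.prodMk (continuous_fst.comp continuous_snd))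
    · exact ((continuous_snd.comp continuous_snd).mul (β.continuous.comp continuous_fst)).smul
        continuous_const

omit hA in
theorem twist_elt (J : FrechetModule.{u} A) (hJ : Injective J) (x0 : J.carrier)
    (hx0 : ∀ a, J.act a x0 = 0) (β : A →L[ℂ] ℂ) (hβ : ∀ a b, β (a * b) = 0) :
    ∃ w : J.carrier, ∀ a, J.act a w = β a • x0 := by
  obtain ⟨ψ, hψ, hψ1⟩ := hJ (twist J x0 hx0 β hβ) (ContinuousLinearMap.inl ℂ J.carrier ℂ) (by
    intro a x
    refine Prod.ext ?_ rfl
    show J.act a x = J.act a x + ((0 : ℂ) * β a) • x0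
    rw [zero_mul, zero_smul, add_zero])
    ⟨ContinuousLinearMap.fst ℂ J.carrier ℂ, fun y => rfl⟩
  have hψ2 : ∀ y : J.carrier, ψ ((y, 0) : J.carrier × ℂ) = y := fun y => hψ1 y
  refine ⟨ψ ((0, 1) : J.carrier × ℂ), fun a => ?_⟩
  have h1 := hψ a ((0, 1) : J.carrier × ℂ)
  have h2 : (twist J x0 hx0 β hβ).act a ((0, 1) : J.carrier × ℂ) =
      ((β a • x0, 0) : J.carrier × ℂ) := by
    refine Prod.ext ?_ rfl
    show J.act a 0 + ((1 : ℂ) * β a) • x0 = β a • x0
    rw [J.act_zero, zero_add, one_mul]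
  rw [h2, hψ2] at h1
  exact h1.symm

omit hA in
/-- If an injective module has a nonzero element annihilated by `A`, then there is a neighbourhood
of zero in `A` on which all continuous functionals that vanish on products are bounded. -/
theorem ann_bound (J : FrechetModule.{u} A) (hJ : Injective J) (x0 : J.carrier) (h0 : x0 ≠ 0)
    (hx0 : ∀ a, J.act a x0 = 0) : ∃ U ∈ 𝓝 (0 : A), ∀ β : A →L[ℂ] ℂ, (∀ a b, β (a * b) = 0) →
      ∃ C : ℝ, ∀ a ∈ U, ‖β a‖ ≤ C := by
  obtain ⟨l, hl⟩ := exists_dual x0 h0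
  have hc : Tendsto (fun p : A × J.carrier => ‖l (J.act p.1 p.2)‖) (𝓝 (0, 0)) (𝓝 0) := by
    have h1 : Continuous fun p : A × J.carrier => ‖l (J.act p.1 p.2)‖ :=
      (l.continuous.comp J.continuous_act).norm
    have h2 := h1.tendsto (0, 0)
    rwa [J.zero_act, map_zero, norm_zero] at h2
  have h1 := hc (Iio_mem_nhds one_pos)
  rw [Filter.mem_map, nhds_prod_eq, Filter.mem_prod_iff] at h1
  obtain ⟨U, hU, V, hV, hUV⟩ := h1
  refine ⟨U, hU, fun β hβ => ?_⟩
  obtain ⟨w, hw⟩ := twist_elt J hJ x0 hx0 β hβ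
  have h2 : Tendsto (fun n : ℕ => ((n : ℂ) + 1)⁻¹ • w) atTop (𝓝 0) := by
    have h3 : Tendsto (fun n : ℕ => ((n : ℂ) + 1)⁻¹) atTop (𝓝 0) := by
      refine (tendsto_one_div_add_atTop_nhds_zero_nat (𝕜 := ℂ)).congr fun n => ?_
      rw [one_div]
    have h4 := h3.smul_const w
    rwa [zero_smul] at h4
  obtain ⟨n, hn⟩ := (h2.eventually hV).exists
  refine ⟨‖(n : ℂ) + 1‖ / ‖l x0‖, fun a ha => ?_⟩
  have h5 := hUV (Set.mk_mem_prod ha hn)
  have h6 : ‖l (J.act a (((n : ℂ) + 1)⁻¹ • w))‖ < 1 := h5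
  rw [J.act_smul, hw, map_smul, map_smul, norm_smul, norm_smul, norm_inv] at h6
  have h7 : 0 < ‖(n : ℂ) + 1‖ := norm_pos_iff.2 (Nat.cast_add_one_ne_zero n)
  rw [inv_mul_lt_iff₀ h7, mul_one] at h6
  rw [le_div_iff₀ (norm_pos_iff.2 hl)]
  exact h6.le

/-- A Fréchet algebra with zero multiplication that has a nonzero injective module is normable. -/
theorem zero_mul_normable (hmul : ∀ a b : A, a * b = 0) (J : FrechetModule.{u} A)
    (hJ : Injective J) (hJ0 : Nontrivial J.carrier) :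
    ∃ U ∈ 𝓝 (0 : A), Bornology.IsVonNBounded ℂ U := by
  have key : ∃ x0 : J.carrier, x0 ≠ 0 ∧ ∀ a, J.act a x0 = 0 := by
    by_cases h : ∃ a x, J.act a x ≠ 0
    · obtain ⟨a, x, hx⟩ := h
      exact ⟨_, hx, fun b => by rw [← J.mul_act, hmul, J.zero_act]⟩
    · push Not at h
      obtain ⟨x, hx⟩ := exists_ne (0 : J.carrier)
      exact ⟨x, hx, fun a => h a x⟩
  obtain ⟨x0, h0, hx0⟩ := key
  obtain ⟨U, hU, h⟩ := ann_bound J hJ x0 h0 hx0
  exact ⟨U, hU, mackey U fun β => h β fun a b => by rw [hmul, map_zero]⟩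

end

end Pool.Agent.H474_Inj
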