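import Pool.Agent.H474_Inj.HolFin
import Pool.Agent.H474_Inj.Triv

/-!
# Bounds, compact exhaustion, approximation of the Cauchy kernel
-/

open Topology Filter TopologicalSpace

universe u v

namespace Pool.Agent.H474_Inj

theorem bound_of_lt {V : Type u} {W : Type v} [AddCommGroup V] [Module ℂ V]
    [NormedAddCommGroup W] [NormedSpace ℂ W] (R : V →ₗ[ℂ] W) (T : V →ₗ[ℂ] ℂ) {ε B : ℝ}
    (hε : 0 < ε) (h : ∀ v, ‖R v‖ < ε → ‖T v‖ < B) (v : V) : ‖T v‖ ≤ 2 * B / ε * ‖R v‖ := by
  have hB : 0 < B := (norm_nonneg _).trans_lt (h 0 (by rwa [map_zero, norm_zero]))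
  by_cases hv : ‖R v‖ = 0
  · rw [hv, mul_zero]
    by_contra hcon
    push Not at hcon
    have h1 := h (((B / ‖T v‖ : ℝ) : ℂ) • v) (by
      rw [map_smul, norm_smul, hv, mul_zero]
      exact hε)
    rw [map_smul, norm_smul, Complex.norm_real, Real.norm_of_nonneg (by positivity),
      div_mul_cancel₀ _ hcon.ne'] at h1
    exact lt_irrefl _ h1
  · have hv' : 0 < ‖R v‖ := lt_of_le_of_ne (norm_nonneg _) (Ne.symm hv)
    have h1 := h (((ε / (2 * ‖R v‖) : ℝ) : ℂ) • v) (by
      rw [map_smul, norm_smul, Complex.norm_real, Real.norm_of_nonneg (by positivity)]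
      have e : ε / (2 * ‖R v‖) * ‖R v‖ = ε / 2 := by field_simp
      rw [e]
      linarith)
    rw [map_smul, norm_smul, Complex.norm_real, Real.norm_of_nonneg (by positivity)] at h1
    rw [div_mul_eq_mul_div, le_div_iff₀ hε]
    rw [div_mul_eq_mul_div, div_lt_iff₀ (by positivity)] at h1
    nlinarith

section
variable {U : Opens ℂ}

theorem hol_nhds {S : Set (Hol U)} (hS : S ∈ 𝓝 (0 : Hol U)) :
    ∃ (K : Compacts ℂ) (hK : (K : Set ℂ) ⊆ U) (ε : ℝ), 0 < ε ∧
      ∀ f : Hol U, ‖rest K hK f‖ < ε → f ∈ S := by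
  have e0 : (𝓝 (0 : Hol U)) = comap Subtype.val (𝓝 (0 : C(U, ℂ))) := nhds_subtype_eq_comap
  rw [e0] at hS
  obtain ⟨V, hV, hVS⟩ := hS
  obtain ⟨⟨K', W⟩, ⟨hK', hW⟩, hKW⟩ := (nhds_basis_uniformity'
    (ContinuousMap.hasBasis_compactConvergenceUniformity (α := U) (β := ℂ))).mem_iff.1 hV
  obtain ⟨ε, hε, hεW⟩ := Metric.mem_uniformity_dist.1 hW
  refine ⟨⟨Subtype.val '' K', hK'.image continuous_subtype_val⟩, ?_, ε, hε, fun f hf => ?_⟩
  · rintro _ ⟨z, -, rfl⟩
    exact z.2
  · apply hVS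
    apply hKW
    intro z hz
    apply hεW
    show dist ((0 : C(U, ℂ)) z) (f.1 z) < ε
    rw [ContinuousMap.zero_apply, dist_zero_left, ← extz_apply]
    refine lt_of_le_of_lt (norm_extz_le _ _ f ?_) hf
    exact ⟨z, hz, rfl⟩

theorem act_bound (J : FrechetModule.{u} (Hol U)) (l : J.carrier →L[ℂ] ℂ) :
    ∃ (K : Compacts ℂ) (hK : (K : Set ℂ) ⊆ U), ∀ y : J.carrier, ∃ C : ℝ, 0 ≤ C ∧
      ∀ f : Hol U, ‖l (J.act f y)‖ ≤ C * ‖rest K hK f‖ := by
  have hc : Tendsto (fun p : Hol U × J.carrier => ‖l (J.act p.1 p.2)‖) (𝓝 (0, 0)) (𝓝 0) := by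
    have h1 : Continuous fun p : Hol U × J.carrier => ‖l (J.act p.1 p.2)‖ :=
      (l.continuous.comp J.continuous_act).norm
    have h2 := h1.tendsto (0, 0)
    rwa [J.zero_act, map_zero, norm_zero] at h2
  have h1 := hc (Iio_mem_nhds one_pos)
  rw [Filter.mem_map, nhds_prod_eq, Filter.mem_prod_iff] at h1
  obtain ⟨S, hS, V, hV, hSV⟩ := h1
  obtain ⟨K, hK, ε, hε, h⟩ := hol_nhds hS
  refine ⟨K, hK, fun y => ?_⟩
  have h2 : Tendsto (fun n : ℕ => ((n : ℂ) + 1)⁻¹ • y) atTop (𝓝 0) := by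
    have h3 : Tendsto (fun n : ℕ => ((n : ℂ) + 1)⁻¹) atTop (𝓝 0) := by
      refine (tendsto_one_div_add_atTop_nhds_zero_nat (𝕜 := ℂ)).congr fun n => ?_
      rw [one_div]
    have h4 := h3.smul_const y
    rwa [zero_smul] at h4
  obtain ⟨n, hn⟩ := (h2.eventually hV).exists
  let T : Hol U →ₗ[ℂ] ℂ :=
    { toFun := fun f => l (J.act f y)
      map_add' := fun f g => by rw [J.add_act, map_add]
      map_smul' := fun c f => by rw [J.smul_act, map_smul, RingHom.id_apply] }
  have h5 : ∀ f : Hol U, ‖(rest K hK).toLinearMap f‖ < ε → ‖T f‖ < ‖(n : ℂ) + 1‖ := by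
    intro f hf
    have h6 : ‖l (J.act f (((n : ℂ) + 1)⁻¹ • y))‖ < 1 := hSV (Set.mk_mem_prod (h f hf) hn)
    rw [J.act_smul, map_smul, norm_smul, norm_inv] at h6
    have h7 : 0 < ‖(n : ℂ) + 1‖ := norm_pos_iff.2 (Nat.cast_add_one_ne_zero n)
    rw [inv_mul_lt_iff₀ h7, mul_one] at h6
    exact h6
  exact ⟨2 * ‖(n : ℂ) + 1‖ / ε, by positivity, fun f =>
    bound_of_lt (rest K hK).toLinearMap T hε h5 f⟩

theorem rest_sub (K : Compacts ℂ) (hK : (K : Set ℂ) ⊆ U) (f g : Hol U) :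
    rest K hK (f - g) = rest K hK f - rest K hK g := by
  ext z
  rw [ContinuousMap.sub_apply, rest_apply, rest_apply, rest_apply, extz_sub]

/-- The compact sets of the standard exhaustion of `U`. -/
def shape (U : Opens ℂ) (R δ : ℝ) : Set ℂ := {z | ‖z‖ ≤ R ∧ ∀ b, b ∉ U → δ ≤ dist z b}

theorem shape_subset {R δ : ℝ} (hδ : 0 < δ) : shape U R δ ⊆ U := by
  intro z hz
  by_contra hzU
  have h1 := hz.2 z hzU
  rw [dist_self] at h1
  linarith

theorem isCompact_shape (R δ : ℝ) : IsCompact (shape U R δ) := by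
  refine (isCompact_closedBall (0 : ℂ) R).of_isClosed_subset ?_ ?_
  · have h1 : shape U R δ = {z : ℂ | ‖z‖ ≤ R} ∩ ⋂ (b : ℂ) (_ : b ∉ U), {z : ℂ | δ ≤ dist z b} := by
      ext z
      simp [shape]
    rw [h1]
    refine (isClosed_le continuous_norm continuous_const).inter ?_
    refine isClosed_iInter fun b => isClosed_iInter fun _ => ?_
    exact isClosed_le continuous_const (continuous_id.dist continuous_const)
  · intro z hz
    rw [mem_closedBall_zero_iff]
    exact hz.1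

theorem exists_shape (K : Compacts ℂ) (hK : (K : Set ℂ) ⊆ U) :
    ∃ R δ : ℝ, 0 < R ∧ 0 < δ ∧ (K : Set ℂ) ⊆ shape U R δ := by
  obtain ⟨δ, hδ, hδU⟩ := K.isCompact.exists_cthickening_subset_open U.isOpen hK
  obtain ⟨R, hR, hKR⟩ := K.isCompact.isBounded.subset_closedBall_lt 0 0
  refine ⟨R, δ, hR, hδ, fun z hz => ⟨?_, fun b hb => ?_⟩⟩
  · exact mem_closedBall_zero_iff.1 (hKR hz)
  · by_contra hcon
    push Not at hcon
    apply hb
    apply hδU
    refine Metric.closedBall_subset_cthickening hz δ ?_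
    rw [Metric.mem_closedBall, dist_comm]
    exact hcon.le

theorem shape_subset_interior {R δ : ℝ} (hδ : 0 < δ) :
    shape U R δ ⊆ interior (shape U (R + δ / 2) (δ / 2)) := by
  intro z hz
  rw [mem_interior_iff_mem_nhds]
  refine mem_of_superset (Metric.closedBall_mem_nhds z (half_pos hδ)) ?_
  intro w hw
  rw [Metric.mem_closedBall] at hw
  refine ⟨?_, fun b hb => ?_⟩
  · have h1 := norm_le_norm_add_norm_sub' w z
    rw [← dist_eq_norm] at h1
    linarith [hz.1]
  · have h1 := dist_triangle z w b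
    rw [dist_comm z w] at h1
    linarith [hz.2 b hb]

/-- Geometric series in a closed subalgebra. -/
theorem exists_inv_one_sub {B : Type u} [NormedCommRing B] [NormedAlgebra ℂ B] [CompleteSpace B]
    (S : Subalgebra ℂ B) (hS : IsClosed (S : Set B)) (v : B) (hv : v ∈ S) (h : ‖v‖ < 1) :
    ∃ s ∈ S, (1 - v) * s = 1 := by
  refine ⟨∑' i : ℕ, v ^ i, ?_, mul_neg_geom_series v h⟩
  have h1 := (summable_geometric_of_norm_lt_one h).hasSum.tendsto_sum_nat
  exact hS.mem_of_tendsto h1 (Eventually.of_forall fun n => S.sum_mem fun i _ => S.pow_mem hv i)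

theorem exists_cauchy (K : Compacts ℂ) {R δ : ℝ} (hR : 0 < R) (hδ : 0 < δ)
    (hK : (K : Set ℂ) = shape U R δ) (hKU : (K : Set ℂ) ⊆ U) {l : ℂ} (hl : l ∉ K) :
    ∃ s ∈ (rest K hKU).range.topologicalClosure,
      (rest K hKU (coordz - constz l)) * s = 1 := by
  have hcl : IsClosed (((rest K hKU).range.topologicalClosure : Subalgebra ℂ C(K, ℂ)) :
    Set C(K, ℂ)) := Subalgebra.isClosed_topologicalClosure _
  have hmem : ∀ f, rest K hKU f ∈ (rest K hKU).range.topologicalClosure := fun f =>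
    Subalgebra.le_topologicalClosure _ ⟨f, rfl⟩
  have hKs : ∀ z ∈ K, z ∈ shape U R δ := fun z hz => hK ▸ (show z ∈ (K : Set ℂ) from hz)
  have hl' : l ∉ shape U R δ := fun h => hl (show l ∈ (K : Set ℂ) from hK ▸ h)
  by_cases h1 : ‖l‖ ≤ R
  · -- a point of the complement of `U` is close
    obtain ⟨b, hb, hbl⟩ : ∃ b, b ∉ U ∧ dist l b < δ := by
      by_contra hcon
      push Not at hcon
      exact hl' ⟨h1, hcon⟩
    have hbU : DifferentiableOn ℂ (fun z => (z - b)⁻¹) U := by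
      refine DifferentiableOn.inv (differentiableOn_id.sub_const b) fun z hz h0 => hb ?_
      rw [sub_eq_zero] at h0
      rw [← h0]
      exact hz
    let g : Hol U := mkz _ hbU
    have hg : ∀ z ∈ U, extz g z = (z - b)⁻¹ := fun z hz => extz_mk _ _ hz
    have hgb : (coordz - constz b) * g = 1 := by
      refine extz_eq fun z hz => ?_
      rw [extz_mul, extz_sub, extz_coordz hz, extz_constz hz, hg z hz, extz_one hz]
      refine mul_inv_cancel₀ fun h0 => hb ?_
      rw [sub_eq_zero] at h0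
      rw [← h0]
      exact hz
    have hgn : ‖rest K hKU (constz (l - b) * g)‖ < 1 := by
      have h2 : ‖rest K hKU (constz (l - b) * g)‖ ≤ dist l b / δ := by
        refine norm_rest_le K hKU _ (by positivity) fun z hz => ?_
        rw [extz_mul, extz_constz (hKU hz), hg z (hKU hz), norm_mul, norm_inv, ← dist_eq_norm,
          ← dist_eq_norm, ← div_eq_mul_inv]
        exact div_le_div_of_nonneg_left dist_nonneg hδ ((hKs z hz).2 b hb)
      exact h2.trans_lt ((div_lt_one hδ).2 hbl)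
    obtain ⟨s, hs, hs1⟩ := exists_inv_one_sub _ hcl _ (hmem _) hgn
    refine ⟨rest K hKU g * s, Subalgebra.mul_mem _ (hmem g) hs, ?_⟩
    have h3 : (coordz - constz l) * g = 1 - constz (l - b) * g := by
      rw [constz_sub]
      linear_combination hgb
    rw [← mul_assoc, ← map_mul, h3, rest_sub, map_one]
    exact hs1
  · push Not at h1
    have hl0 : l ≠ 0 := by
      rintro rfl
      rw [norm_zero] at h1
      linarith
    have hgn : ‖rest K hKU (constz l⁻¹ * coordz)‖ < 1 := by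
      have h2 : ‖rest K hKU (constz l⁻¹ * coordz)‖ ≤ R / ‖l‖ := by
        refine norm_rest_le K hKU _ (by positivity) fun z hz => ?_
        rw [extz_mul, extz_constz (hKU hz), extz_coordz (hKU hz), norm_mul, norm_inv, mul_comm,
          ← div_eq_mul_inv]
        exact div_le_div_of_nonneg_right (hKs z hz).1 (norm_nonneg _)
      exact h2.trans_lt ((div_lt_one (hR.trans h1)).2 h1)
    obtain ⟨s, hs, hs1⟩ := exists_inv_one_sub _ hcl _ (hmem _) hgn
    refine ⟨rest K hKU (constz (-l⁻¹)) * s, Subalgebra.mul_mem _ (hmem _) hs, ?_⟩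
    have h3 : (coordz - constz l) * constz (-l⁻¹) = 1 - constz l⁻¹ * (coordz : Hol U) := by
      have h4 : (constz l * constz l⁻¹ : Hol U) = 1 := by
        rw [← constz_mul, mul_inv_cancel₀ hl0]
        exact map_one (algebraMap ℂ (Hol U))
      have h5 : (constz (-l⁻¹) : Hol U) = - constz l⁻¹ := map_neg (algebraMap ℂ (Hol U)) _
      rw [h5]
      linear_combination h4
    rw [← mul_assoc, ← map_mul, h3, rest_sub, map_one]
    exact hs1

end

end Pool.Agent.H474_Inj
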