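import Pool.Agent.H474_Inj.HolFin2

/-!
# There are no nonzero injective modules over `O(U)`
-/

open Topology Filter TopologicalSpace Bornology

universe u v

namespace Pool.Agent.H474_Inj

section
variable {U : Opens ℂ}

theorem hol_functional_zero (J : FrechetModule.{u} (Hol U)) (hJ1 : Unital (A := Hol U) J)
    (hJ : UInjective (A := Hol U) J) (x : J.carrier) (l : J.carrier →L[ℂ] ℂ) : l x = 0 := by
  obtain ⟨K0, hK0, hb0⟩ := act_bound J l
  obtain ⟨R, δ, hR, hδ, hsh⟩ := exists_shape K0 hK0
  let K : Compacts ℂ := ⟨shape U R δ, isCompact_shape R δ⟩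
  have hKU : (K : Set ℂ) ⊆ U := shape_subset hδ
  let L : Compacts ℂ := ⟨shape U (R + δ / 2) (δ / 2), isCompact_shape _ _⟩
  have hLU : (L : Set ℂ) ⊆ U := shape_subset (half_pos hδ)
  have hKL : (K : Set ℂ) ⊆ interior (L : Set ℂ) := shape_subset_interior hδ
  have hb : ∀ y : J.carrier, ∃ C : ℝ, 0 ≤ C ∧
      ∀ f : Hol U, ‖l (J.act f y)‖ ≤ C * ‖rest K hKU f‖ := by
    intro y
    obtain ⟨C, hC, h⟩ := hb0 y
    refine ⟨C, hC, fun f => (h f).trans (mul_le_mul_of_nonneg_left ?_ hC)⟩
    exact norm_rest_le K0 hK0 f (norm_nonneg _) fun z hz => norm_extz_le K hKU f (hsh hz)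
  have hfun : ∀ y : J.carrier, ∃ M : C(K, ℂ) →L[ℂ] ℂ, ∀ f : Hol U,
      M (rest K hKU f) = l (J.act f y) := by
    intro y
    obtain ⟨C, hC, h⟩ := hb y
    let T : Hol U →ₗ[ℂ] ℂ :=
      { toFun := fun f => l (J.act f y)
        map_add' := fun f g => by rw [J.add_act, map_add]
        map_smul' := fun c f => by rw [J.smul_act, map_smul, RingHom.id_apply] }
    exact exists_functional (rest K hKU).toLinearMap T C hC fun f => h f
  obtain ⟨T, hT⟩ := exists_theta J hJ1 hJ x L hLU
  obtain ⟨M, hM⟩ := hfun x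
  let g1 : ℂ → ℂ := evfun L hLU (l.comp T)
  let idK : C(K, ℂ) := rest K hKU coordz
  let g2 : ℂ → ℂ := fun z => - M (resolvent idK z)
  have hres : ∀ z, z ∉ K → ∃ s ∈ (rest K hKU).range.topologicalClosure,
      rest K hKU (coordz - constz z) * s = 1 ∧ z ∈ resolventSet ℂ idK ∧
      resolvent idK z = - s := by
    intro z hz
    obtain ⟨s, hs, hs1⟩ := exists_cauchy K hR hδ rfl hKU hz
    have e1 : algebraMap ℂ C(K, ℂ) z - idK = - rest K hKU (coordz - constz z) := by
      have e0 : rest K hKU (constz z) = algebraMap ℂ C(K, ℂ) z := (rest K hKU).commutes z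
      rw [rest_sub, neg_sub, e0]
    have e2 : (algebraMap ℂ C(K, ℂ) z - idK) * (-s) = 1 := by
      rw [e1, neg_mul_neg, hs1]
    have hu : IsUnit (algebraMap ℂ C(K, ℂ) z - idK) := IsUnit.of_mul_eq_one _ e2
    refine ⟨s, hs, hs1, hu, ?_⟩
    have e3 : resolvent idK z = Ring.inverse (algebraMap ℂ C(K, ℂ) z - idK) := rfl
    have e4 : Ring.inverse (algebraMap ℂ C(K, ℂ) z - idK) *
        ((algebraMap ℂ C(K, ℂ) z - idK) * (-s)) = -s := by
      rw [← mul_assoc, Ring.inverse_mul_cancel _ hu, one_mul]
    rw [e2, mul_one] at e4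
    rw [e3, e4]
  have hagree : ∀ z, z ∈ L → z ∉ K → g1 z = g2 z := by
    intro z hzL hzK
    obtain ⟨s, hs, hs1, -, hs2⟩ := hres z hzK
    obtain ⟨N, hN⟩ := hfun (T (evL L hLU ⟨z, hzL⟩))
    have h1 : ∀ g ∈ (rest K hKU).range.topologicalClosure,
        N (rest K hKU (coordz - constz z) * g) = M g := by
      intro g hg
      have hcl : IsClosed {g : C(K, ℂ) | N (rest K hKU (coordz - constz z) * g) = M g} :=
        isClosed_eq (N.continuous.comp (continuous_const.mul continuous_id)) M.continuous
      have hsub : ((rest K hKU).range : Set C(K, ℂ)) ⊆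
          {g : C(K, ℂ) | N (rest K hKU (coordz - constz z) * g) = M g} := by
        rintro _ ⟨f, rfl⟩
        show N (rest K hKU (coordz - constz z) * rest K hKU f) = M (rest K hKU f)
        rw [← map_mul, hN, hM, mul_comm, J.mul_act, hT ⟨z, hzL⟩]
      exact closure_minimal hsub hcl hg
    have h2 := h1 s hs
    rw [hs1] at h2
    have h3 : N 1 = l (T (evL L hLU ⟨z, hzL⟩)) := by
      have h4 := hN 1
      rw [map_one, hJ1] at h4
      exact h4
    have h5 : g1 z = l (T (evL L hLU ⟨z, hzL⟩)) := dif_pos hzL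
    show g1 z = - M (resolvent idK z)
    rw [h5, ← h3, h2, hs2, map_neg, neg_neg]
  classical
  let H : ℂ → ℂ := fun z => if z ∈ interior (L : Set ℂ) then g1 z else g2 z
  have hHd : Differentiable ℂ H := by
    intro z
    by_cases hz : z ∈ interior (L : Set ℂ)
    · have h1 : H =ᶠ[𝓝 z] g1 := by
        filter_upwards [isOpen_interior.mem_nhds hz] with w hw
        exact if_pos hw
      exact (evfun_differentiableAt L hLU (l.comp T) hz).congr_of_eventuallyEq h1
    · have hzK : z ∉ K := fun h => hz (hKL h)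
      have h1 : H =ᶠ[𝓝 z] g2 := by
        filter_upwards [K.isCompact.isClosed.isOpen_compl.mem_nhds hzK] with w hw
        by_cases hwL : w ∈ interior (L : Set ℂ)
        · exact (if_pos hwL).trans (hagree w (interior_subset hwL) hw)
        · exact if_neg hwL
      obtain ⟨s, -, -, hs, -⟩ := hres z hzK
      have h2 : DifferentiableAt ℂ (fun z => resolvent idK z) z :=
        (spectrum.hasDerivAt_resolvent_const_left hs).differentiableAt
      have h3 : DifferentiableAt ℂ g2 z := (M.differentiableAt.comp z h2).neg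
      exact h3.congr_of_eventuallyEq h1
  have hlim : Tendsto (fun z : ℂ => resolvent idK z) (cobounded ℂ) (𝓝 0) :=
    spectrum.resolvent_tendsto_cobounded idK
  have hev : ∀ᶠ z : ℂ in cobounded ℂ, z ∉ L :=
    isBounded_def.1 L.isCompact.isBounded
  have hH0 : ∀ z, H z = 0 := by
    intro z
    refine hHd.apply_eq_of_tendsto_cocompact z ?_
    rw [← Metric.cobounded_eq_cocompact]
    have h1 : Tendsto g2 (cobounded ℂ) (𝓝 0) := by
      have h2 := ((M.continuous.tendsto 0).comp hlim).neg
      rw [map_zero, neg_zero] at h2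
      exact h2
    refine h1.congr' ?_
    filter_upwards [hev] with w hw
    exact (if_neg fun h => hw (interior_subset h)).symm
  have hM1 : M 1 = 0 := by
    have h1 : Tendsto (fun z : ℂ => - M (idK * resolvent idK z)) (cobounded ℂ) (𝓝 0) := by
      have h2 : Tendsto (fun z : ℂ => idK * resolvent idK z) (cobounded ℂ) (𝓝 0) := by
        have h3 := hlim.const_mul idK
        rwa [mul_zero] at h3
      have h4 := ((M.continuous.tendsto 0).comp h2).neg
      rw [map_zero, neg_zero] at h4
      exact h4
    have h5 : Tendsto (fun _ : ℂ => M 1) (cobounded ℂ) (𝓝 0) := by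
      refine h1.congr' ?_
      filter_upwards [hev] with w hw
      have hwK : w ∉ K := fun h => hw (interior_subset (hKL h))
      obtain ⟨s, -, hs1, -, hs2⟩ := hres w hwK
      have h6 : M (resolvent idK w) = 0 := by
        have h7 : H w = g2 w := if_neg fun h => hw (interior_subset h)
        rw [hH0] at h7
        exact neg_eq_zero.1 h7.symm
      have h8 : idK * resolvent idK w = w • resolvent idK w - 1 := by
        rw [hs2, ← hs1, rest_sub]
        have h9 : rest K hKU (constz w) = algebraMap ℂ C(K, ℂ) w := (rest K hKU).commutes w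
        rw [h9, Algebra.smul_def]
        show idK * -s = algebraMap ℂ C(K, ℂ) w * -s - (idK - algebraMap ℂ C(K, ℂ) w) * s
        ring
      rw [h8, map_sub, map_smul, h6, smul_zero, zero_sub, neg_neg]
    exact tendsto_nhds_unique tendsto_const_nhds h5
  have h1 := hM 1
  rw [map_one, hM1, hJ1] at h1
  exact h1.symm

/-- There are no nonzero injective unital Fréchet modules over `O(U)`. -/
theorem hol_vanish (J : FrechetModule.{u} (Hol U)) (hJ1 : Unital (A := Hol U) J)
    (hJ : UInjective (A := Hol U) J) : Subsingleton J.carrier := by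
  have key : ∀ x : J.carrier, x = 0 := by
    intro x
    by_contra hx
    obtain ⟨l, hl⟩ := exists_dual x hx
    exact hl (hol_functional_zero J hJ1 hJ x l)
  exact ⟨fun x y => by rw [key x, key y]⟩

end

end Pool.Agent.H474_Inj
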