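import Pool.Agent.H474_Inj.HolFin3

/-!
# The algebra `O(U)` and its maximal ideals
-/

open Topology Filter TopologicalSpace

universe u v

namespace Pool.Agent.H474_Inj

/-- The algebra `O(U)` of holomorphic functions on the open subset `U` of the complex plane, with
the topology of uniform convergence on compact subsets of `U`. -/
def HolAlg (U : Opens ℂ) : Type := Hol U

noncomputable instance instHolCommRing (U : Opens ℂ) : CommRing (HolAlg U) := (Hol U).toCommRing

noncomputable instance instHolAlgebra (U : Opens ℂ) : Algebra ℂ (HolAlg U) := (Hol U).algebra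

noncomputable instance instHolModule (U : Opens ℂ) :
    @Module ℂ (HolAlg U) _ (@NonUnitalNonAssocSemiring.toAddCommMonoid (HolAlg U)
      (@NonUnitalNonAssocRing.toNonUnitalNonAssocSemiring (HolAlg U)
        (@NonUnitalRing.toNonUnitalNonAssocRing (HolAlg U) inferInstance))) := Algebra.toModule

noncomputable instance instHolTopology (U : Opens ℂ) : TopologicalSpace (HolAlg U) :=
  instTopologicalSpaceSubtype

instance instHolFrechet (U : Opens ℂ) : FrechetAlgebra (HolAlg U) := instHol (U := U)

/-- There are no nonzero injective unital Fréchet modules over `O(U)`. -/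
theorem holAlg_vanish {U : Opens ℂ} (J : FrechetModule.{u} (HolAlg U)) (hJ1 : Unital J)
    (hJ : UInjective J) : Subsingleton J.carrier := hol_vanish (U := U) J hJ1 hJ

/-- Evaluation at the point `z` of `U`, a character of `O(U)`. -/
noncomputable def evalHol {U : Opens ℂ} (z : U) : HolAlg U →ₐ[ℂ] ℂ :=
  (ContinuousMap.evalAlgHom ℂ ℂ z).comp (Hol U).val

theorem continuous_evalHol {U : Opens ℂ} (z : U) : Continuous (evalHol z) :=
  (ContinuousEvalConst.continuous_eval_const z).comp continuous_subtype_val

theorem holMax_frechet {U : Opens ℂ} (z : U) : FrechetAlgebra (RingHom.ker (evalHol z)) :=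
  frechetAlgebra_ker (evalHol z) (continuous_evalHol z)

theorem holMax_vanish {U : Opens ℂ} (z : U) (J : FrechetModule.{u} (RingHom.ker (evalHol z)))
    (hJ : Injective J) : Subsingleton J.carrier :=
  transfer_ker (evalHol z) (continuous_evalHol z) holAlg_vanish J hJ

/-- The ideal of `O(U)` formed by all functions that vanish at the point `z` of `U`. It is an algebra
without unit, with the topology induced by `O(U)`. -/
noncomputable def HolIdeal {U : Opens ℂ} (z : U) : Ideal (HolAlg U) := RingHom.ker (evalHol z)

theorem holIdeal_frechet {U : Opens ℂ} (z : U) : FrechetAlgebra (HolIdeal z) :=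
  holMax_frechet z

theorem holIdeal_vanish {U : Opens ℂ} (z : U) (J : FrechetModule.{u} (HolIdeal z))
    (hJ : Injective J) : Subsingleton J.carrier :=
  holMax_vanish z J hJ

end Pool.Agent.H474_Inj
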