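import Pool.Agent.H474_Inj.DD

/-!
# Extensions of the algebra of holomorphic functions by spaces of functionals
-/

open Topology Filter TopologicalSpace

universe u v

namespace Pool.Agent.H474_Inj

section
variable {U : Opens ℂ}

/-- Restriction to a compact set. -/
noncomputable def rest (L : Compacts ℂ) (hL : (L : Set ℂ) ⊆ U) : Hol U →ₐ[ℂ] C(L, ℂ) :=
  (ContinuousMap.compRightAlgHom ℂ ℂ
    (⟨Set.inclusion hL, continuous_inclusion hL⟩ : C(L, U))).comp (Hol U).val

theorem rest_apply (L : Compacts ℂ) (hL : (L : Set ℂ) ⊆ U) (f : Hol U) (z : L) :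
    rest L hL f z = extz f z := (extz_apply f ⟨z, hL z.2⟩).symm

theorem continuous_rest (L : Compacts ℂ) (hL : (L : Set ℂ) ⊆ U) : Continuous (rest L hL) :=
  (ContinuousMap.continuous_precomp _).comp continuous_subtype_val

theorem norm_rest_le (L : Compacts ℂ) (hL : (L : Set ℂ) ⊆ U) (f : Hol U) {C : ℝ} (hC : 0 ≤ C)
    (h : ∀ z ∈ L, ‖extz f z‖ ≤ C) : ‖rest L hL f‖ ≤ C := by
  rw [ContinuousMap.norm_le _ hC]
  intro z
  rw [rest_apply]
  exact h z z.2

theorem norm_extz_le (L : Compacts ℂ) (hL : (L : Set ℂ) ⊆ U) (f : Hol U) {z : ℂ} (hz : z ∈ L) :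
    ‖extz f z‖ ≤ ‖rest L hL f‖ := by
  have h1 := ContinuousMap.norm_coe_le_norm (rest L hL f) ⟨z, hz⟩
  rwa [rest_apply] at h1

theorem norm_ddz_le_of_le {z w : ℂ} {δ C : ℝ} (hδ : 0 < δ) (hzw : δ ≤ ‖w - z‖) (f : Hol U)
    (hw : w ∈ U) (h1 : ‖extz f z‖ ≤ C) (h2 : ‖extz f w‖ ≤ C) :
    ‖extz (ddz z f) w‖ ≤ 2 / δ * C := by
  have h3 : (w - z) * extz (ddz z f) w = extz f w - extz f z := by
    rw [extz_ddz z f hw]
    exact sub_smul_dslope (extz f) z w
  have h4 : ‖w - z‖ * ‖extz (ddz z f) w‖ ≤ 2 * C := by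
    rw [← norm_mul, h3]
    linarith [norm_sub_le (extz f w) (extz f z)]
  have h5 : δ * ‖extz (ddz z f) w‖ ≤ 2 * C :=
    (mul_le_mul_of_nonneg_right hzw (norm_nonneg _)).trans h4
  rw [div_mul_eq_mul_div, le_div_iff₀ hδ, mul_comm]
  exact h5

/-- Divided differences are controlled uniformly. -/
theorem ddz_bound_point {z w : ℂ} {δ C : ℝ} (hδ : 0 < δ) (f : Hol U)
    (hw : Metric.closedBall w δ ⊆ U) (h1 : ‖extz f z‖ ≤ C)
    (h2 : ∀ v ∈ Metric.closedBall w δ, ‖extz f v‖ ≤ C) :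
    ‖extz (ddz z f) w‖ ≤ 4 / δ * C := by
  have hC : 0 ≤ C := (norm_nonneg _).trans h1
  have hδ2 : 0 < δ / 2 := by positivity
  have e : 2 / (δ / 2) = 4 / δ := by field_simp; norm_num
  by_cases hzw : δ / 2 ≤ ‖w - z‖
  · have h3 := norm_ddz_le_of_le hδ2 hzw f (hw (Metric.mem_closedBall_self hδ.le)) h1
      (h2 w (Metric.mem_closedBall_self hδ.le))
    rwa [e] at h3
  · push Not at hzw
    refine Complex.norm_le_of_forall_mem_frontier_norm_le (f := extz (ddz z f))
      (U := Metric.ball w δ) Metric.isBounded_ball ?_ ?_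
      (subset_closure (Metric.mem_ball_self hδ))
    · refine DifferentiableOn.diffContOnCl ?_
      refine (diff_extz (ddz z f)).mono ?_
      exact Metric.closure_ball_subset_closedBall.trans hw
    · intro v hv
      rw [frontier_ball w hδ.ne'] at hv
      have hv1 : ‖v - w‖ = δ := by
        rw [← dist_eq_norm]
        exact hv
      have hv2 : v ∈ Metric.closedBall w δ := Metric.sphere_subset_closedBall hv
      have hv3 : δ / 2 ≤ ‖v - z‖ := by
        have h3 : v - w = (v - z) - (w - z) := by ring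
        have h4 := norm_sub_le (v - z) (w - z)
        rw [← h3, hv1] at h4
        linarith
      have h3 := norm_ddz_le_of_le hδ2 hv3 f (hw hv2) h1 (h2 v hv2)
      rwa [e] at h3

theorem ddz_bound (K L : Compacts ℂ) (hK : (K : Set ℂ) ⊆ U) (hL : (L : Set ℂ) ⊆ U) :
    ∃ (M : Compacts ℂ) (hM : (M : Set ℂ) ⊆ U) (C : ℝ), 0 ≤ C ∧
      ∀ f : Hol U, ∀ z ∈ K, ‖rest L hL (ddz z f)‖ ≤ C * ‖rest M hM f‖ := by
  obtain ⟨δ, hδ, hδU⟩ := L.isCompact.exists_cthickening_subset_open U.isOpen hL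
  let M : Compacts ℂ := K ⊔ ⟨Metric.cthickening δ L, L.isCompact.cthickening⟩
  have hM : (M : Set ℂ) ⊆ U := by
    rintro z (hz | hz)
    · exact hK hz
    · exact hδU hz
  refine ⟨M, hM, 4 / δ, by positivity, fun f z hz => ?_⟩
  refine norm_rest_le L hL _ (by positivity) fun w hw => ?_
  have hwM : Metric.closedBall w δ ⊆ Metric.cthickening δ (L : Set ℂ) :=
    Metric.closedBall_subset_cthickening hw δ
  refine ddz_bound_point hδ f (hwM.trans hδU) ?_ ?_
  · exact norm_extz_le M hM f (Or.inl hz)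
  · intro v hv
    exact norm_extz_le M hM f (Or.inr (hwM hv))

end

end Pool.Agent.H474_Inj
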