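import Pool.Agent.H474_Inj.HolMod

/-!
# The extension of `O(U)` by the functionals on a compact subset
-/

open Topology Filter TopologicalSpace

universe u v

namespace Pool.Agent.H474_Inj

theorem instBanach (E : Type u) [NormedAddCommGroup E] [NormedSpace ℂ E] [CompleteSpace E] :
    FrechetSpace E where
  add := inferInstance
  smul := inferInstance
  convex := NormedSpace.toLocallyConvexSpace' ℂ
  metrizable := inferInstance
  complete := complete_of_uniform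

/-- Continuity of biadditive maps. -/
theorem continuous_biadd {G H M : Type*} [AddCommGroup G] [AddCommGroup H] [AddCommGroup M]
    [TopologicalSpace G] [TopologicalSpace H] [TopologicalSpace M] [IsTopologicalAddGroup G]
    [IsTopologicalAddGroup H] [IsTopologicalAddGroup M] (B : G → H → M)
    (h1 : ∀ f g φ, B (f + g) φ = B f φ + B g φ) (h2 : ∀ f φ ψ, B f (φ + ψ) = B f φ + B f ψ)
    (c0 : Tendsto (fun p : G × H => B p.1 p.2) (𝓝 (0, 0)) (𝓝 0))
    (c1 : ∀ f, Tendsto (fun φ => B f φ) (𝓝 0) (𝓝 0))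
    (c2 : ∀ φ, Tendsto (fun f => B f φ) (𝓝 0) (𝓝 0)) : Continuous fun p : G × H => B p.1 p.2 := by
  let B' : G →+ H →+ M := AddMonoidHom.mk' (fun f => AddMonoidHom.mk' (B f) (h2 f)) (fun f g => by
    ext φ
    exact h1 f g φ)
  have e1 : ∀ f, B f 0 = 0 := fun f => (B' f).map_zero
  have e2 : ∀ φ, B 0 φ = 0 := fun φ => (B'.flip φ).map_zero
  refine continuous_of_continuousAt_zero₂ B' ?_ ?_ ?_
  · show Tendsto (fun p : G × H => B p.1 p.2) (𝓝 (0, 0)) (𝓝 (B 0 0))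
    rw [e1]
    exact c0
  · intro f
    show Tendsto (fun φ => B f φ) (𝓝 0) (𝓝 (B f 0))
    rw [e1]
    exact c1 f
  · intro φ
    show Tendsto (fun f => B f φ) (𝓝 0) (𝓝 (B 0 φ))
    rw [e2]
    exact c2 φ

section
variable {U : Opens ℂ}

/-- The algebra of restrictions to `L`. -/
def PL (L : Compacts ℂ) (hL : (L : Set ℂ) ⊆ U) : Type := (rest L hL).range

noncomputable instance instPL1 (L : Compacts ℂ) (hL : (L : Set ℂ) ⊆ U) :
    NormedCommRing (PL L hL) := inferInstanceAs (NormedCommRing (rest L hL).range)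

noncomputable instance instPL2 (L : Compacts ℂ) (hL : (L : Set ℂ) ⊆ U) :
    NormedAlgebra ℂ (PL L hL) := inferInstanceAs (NormedAlgebra ℂ (rest L hL).range)

/-- The restriction. -/
noncomputable def RL (L : Compacts ℂ) (hL : (L : Set ℂ) ⊆ U) : Hol U →ₐ[ℂ] PL L hL :=
  (rest L hL).rangeRestrict

theorem norm_RL (L : Compacts ℂ) (hL : (L : Set ℂ) ⊆ U) (f : Hol U) :
    ‖RL L hL f‖ = ‖rest L hL f‖ := rfl

theorem RL_surjective (L : Compacts ℂ) (hL : (L : Set ℂ) ⊆ U) (x : PL L hL) :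
    ∃ f, RL L hL f = x := (rest L hL).rangeRestrict_surjective x

theorem ddz_dual_bound (L : Compacts ℂ) (hL : (L : Set ℂ) ⊆ U) (K : Compacts ℂ)
    (hK : (K : Set ℂ) ⊆ U) :
    ∃ (M : Compacts ℂ) (hM : (M : Set ℂ) ⊆ U) (C : ℝ), 0 ≤ C ∧
      ∀ (φ : StrongDual ℂ (PL L hL)) (f : Hol U), ∀ z ∈ K,
        ‖φ (RL L hL (ddz z f))‖ ≤ C * (‖φ‖ * ‖rest M hM f‖) := by
  obtain ⟨M, hM, C, hC, h⟩ := ddz_bound K L hK hL
  refine ⟨M, hM, C, hC, fun φ f z hz => ?_⟩
  refine (φ.le_opNorm _).trans ?_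
  rw [norm_RL, mul_left_comm]
  exact mul_le_mul_of_nonneg_left (h f z hz) (norm_nonneg _)

theorem ddz_dual_sub (L : Compacts ℂ) (hL : (L : Set ℂ) ⊆ U) (φ : StrongDual ℂ (PL L hL))
    (f : Hol U) {z z0 : ℂ} (hz : z ∈ U) :
    φ (RL L hL (ddz z f)) - φ (RL L hL (ddz z0 f)) =
      (z - z0) * φ (RL L hL (ddz z (ddz z0 f))) := by
  rw [← map_sub, ← map_sub, ddz_sub_ddz hz, map_smul, map_smul, smul_eq_mul]

theorem ddz_dual_continuousAt (L : Compacts ℂ) (hL : (L : Set ℂ) ⊆ U)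
    (φ : StrongDual ℂ (PL L hL)) (f : Hol U) {z0 : ℂ} (hz0 : z0 ∈ U) :
    ContinuousAt (fun z => φ (RL L hL (ddz z f))) z0 := by
  obtain ⟨r, hr, hrU⟩ := Metric.nhds_basis_closedBall.mem_iff.1 (U.isOpen.mem_nhds hz0)
  let K : Compacts ℂ := ⟨Metric.closedBall z0 r, isCompact_closedBall z0 r⟩
  obtain ⟨M, hM, C, hC, h⟩ := ddz_dual_bound L hL K hrU
  unfold ContinuousAt
  rw [tendsto_iff_norm_sub_tendsto_zero]
  have h1 : Tendsto (fun z => ‖z - z0‖ * (C * (‖φ‖ * ‖rest M hM (ddz z0 f)‖))) (𝓝 z0) (𝓝 0) := by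
    have h2 : Tendsto (fun z : ℂ => ‖z - z0‖) (𝓝 z0) (𝓝 0) := by
      have h3 : Continuous fun z : ℂ => ‖z - z0‖ := by fun_prop
      have h4 := h3.tendsto z0
      rwa [sub_self, norm_zero] at h4
    have h5 := h2.mul_const (C * (‖φ‖ * ‖rest M hM (ddz z0 f)‖))
    rwa [zero_mul] at h5
  refine squeeze_zero' (Eventually.of_forall fun z => norm_nonneg _) ?_ h1
  filter_upwards [Metric.closedBall_mem_nhds z0 hr] with z hz
  rw [ddz_dual_sub L hL φ f (hrU hz), norm_mul]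
  exact mul_le_mul_of_nonneg_left (h φ (ddz z0 f) z hz) (norm_nonneg _)

theorem ddz_dual_differentiableOn (L : Compacts ℂ) (hL : (L : Set ℂ) ⊆ U)
    (φ : StrongDual ℂ (PL L hL)) (f : Hol U) :
    DifferentiableOn ℂ (fun z => φ (RL L hL (ddz z f))) U := by
  intro z0 hz0
  refine (HasDerivAt.differentiableAt
    (f' := φ (RL L hL (ddz z0 (ddz z0 f)))) ?_).differentiableWithinAt
  rw [hasDerivAt_iff_tendsto_slope]
  have h1 := ddz_dual_continuousAt L hL φ (ddz z0 f) hz0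
  refine (h1.mono_left nhdsWithin_le_nhds).congr' ?_
  filter_upwards [self_mem_nhdsWithin, mem_nhdsWithin_of_mem_nhds (U.isOpen.mem_nhds hz0)]
    with z hz hzU
  rw [slope_def_field, ddz_dual_sub L hL φ f hzU, mul_div_cancel_left₀ _ (sub_ne_zero.2 hz)]

/-- The map `D(a, φ)(z) = φ(Q_z a)`. -/
noncomputable def DL (L : Compacts ℂ) (hL : (L : Set ℂ) ⊆ U) (f : Hol U)
    (φ : StrongDual ℂ (PL L hL)) : Hol U :=
  mkz _ (ddz_dual_differentiableOn L hL φ f)

theorem extz_DL (L : Compacts ℂ) (hL : (L : Set ℂ) ⊆ U) (f : Hol U)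
    (φ : StrongDual ℂ (PL L hL)) {z : ℂ} (hz : z ∈ U) :
    extz (DL L hL f φ) z = φ (RL L hL (ddz z f)) := extz_mk _ _ hz

/-- The action of `O(U)` on the functionals. -/
noncomputable def actL (L : Compacts ℂ) (hL : (L : Set ℂ) ⊆ U) (f : Hol U)
    (φ : StrongDual ℂ (PL L hL)) : StrongDual ℂ (PL L hL) :=
  φ.comp (ContinuousLinearMap.mul ℂ (PL L hL) (RL L hL f))

theorem actL_apply (L : Compacts ℂ) (hL : (L : Set ℂ) ⊆ U) (f : Hol U)
    (φ : StrongDual ℂ (PL L hL)) (x : PL L hL) :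
    actL L hL f φ x = φ (RL L hL f * x) := rfl

theorem norm_actL_le (L : Compacts ℂ) (hL : (L : Set ℂ) ⊆ U) (f : Hol U)
    (φ : StrongDual ℂ (PL L hL)) : ‖actL L hL f φ‖ ≤ ‖φ‖ * ‖rest L hL f‖ := by
  refine ContinuousLinearMap.opNorm_le_bound _ (by positivity) fun x => ?_
  rw [actL_apply]
  refine (φ.le_opNorm _).trans ?_
  rw [mul_assoc, ← norm_RL]
  exact mul_le_mul_of_nonneg_left (norm_mul_le _ _) (norm_nonneg _)

theorem actL_add (L : Compacts ℂ) (hL : (L : Set ℂ) ⊆ U) (f : Hol U)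
    (φ ψ : StrongDual ℂ (PL L hL)) : actL L hL f (φ + ψ) = actL L hL f φ + actL L hL f ψ := rfl

theorem add_actL (L : Compacts ℂ) (hL : (L : Set ℂ) ⊆ U) (f g : Hol U)
    (φ : StrongDual ℂ (PL L hL)) : actL L hL (f + g) φ = actL L hL f φ + actL L hL g φ := by
  ext x
  simp only [add_apply, actL_apply, map_add, add_mul]

theorem actL_smul (L : Compacts ℂ) (hL : (L : Set ℂ) ⊆ U) (c : ℂ) (f : Hol U)
    (φ : StrongDual ℂ (PL L hL)) : actL L hL f (c • φ) = c • actL L hL f φ := rfl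

theorem smul_actL (L : Compacts ℂ) (hL : (L : Set ℂ) ⊆ U) (c : ℂ) (f : Hol U)
    (φ : StrongDual ℂ (PL L hL)) : actL L hL (c • f) φ = c • actL L hL f φ := by
  ext x
  simp only [smul_apply, actL_apply, map_smul, smul_mul_assoc]

theorem mul_actL (L : Compacts ℂ) (hL : (L : Set ℂ) ⊆ U) (f g : Hol U)
    (φ : StrongDual ℂ (PL L hL)) : actL L hL (f * g) φ = actL L hL f (actL L hL g φ) := by
  ext x
  simp only [actL_apply, map_mul]
  congr 1
  ring

theorem DL_add (L : Compacts ℂ) (hL : (L : Set ℂ) ⊆ U) (f : Hol U)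
    (φ ψ : StrongDual ℂ (PL L hL)) : DL L hL f (φ + ψ) = DL L hL f φ + DL L hL f ψ := by
  refine extz_eq fun z hz => ?_
  rw [extz_add, extz_DL _ _ _ _ hz, extz_DL _ _ _ _ hz, extz_DL _ _ _ _ hz]
  rfl

theorem add_DL (L : Compacts ℂ) (hL : (L : Set ℂ) ⊆ U) (f g : Hol U)
    (φ : StrongDual ℂ (PL L hL)) : DL L hL (f + g) φ = DL L hL f φ + DL L hL g φ := by
  refine extz_eq fun z hz => ?_
  rw [extz_add, extz_DL _ _ _ _ hz, extz_DL _ _ _ _ hz, extz_DL _ _ _ _ hz, ddz_add, map_add,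
    map_add]

theorem DL_smul (L : Compacts ℂ) (hL : (L : Set ℂ) ⊆ U) (c : ℂ) (f : Hol U)
    (φ : StrongDual ℂ (PL L hL)) : DL L hL f (c • φ) = c • DL L hL f φ := by
  refine extz_eq fun z hz => ?_
  rw [extz_smul, extz_DL _ _ _ _ hz, extz_DL _ _ _ _ hz]
  rfl

theorem smul_DL (L : Compacts ℂ) (hL : (L : Set ℂ) ⊆ U) (c : ℂ) (f : Hol U)
    (φ : StrongDual ℂ (PL L hL)) : DL L hL (c • f) φ = c • DL L hL f φ := by
  refine extz_eq fun z hz => ?_
  rw [extz_smul, extz_DL _ _ _ _ hz, extz_DL _ _ _ _ hz, ddz_smul, map_smul, map_smul,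
    smul_eq_mul]

theorem mul_DL (L : Compacts ℂ) (hL : (L : Set ℂ) ⊆ U) (f g : Hol U)
    (φ : StrongDual ℂ (PL L hL)) :
    DL L hL (f * g) φ = f * DL L hL g φ + DL L hL f (actL L hL g φ) := by
  refine extz_eq fun z hz => ?_
  rw [extz_add, extz_mul, extz_DL _ _ _ _ hz, extz_DL _ _ _ _ hz, extz_DL _ _ _ _ hz, ddz_mul,
    ← constz_smul, map_add, map_add, map_smul, map_smul, actL_apply, map_mul, smul_eq_mul]

theorem tendsto_norm_dual (L : Compacts ℂ) (hL : (L : Set ℂ) ⊆ U) :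
    Tendsto (fun φ : StrongDual ℂ (PL L hL) => ‖φ‖) (𝓝 0) (𝓝 0) := by
  have h1 : Continuous (fun φ : StrongDual ℂ (PL L hL) => ‖φ‖) := continuous_norm
  have h2 : ‖(0 : StrongDual ℂ (PL L hL))‖ = 0 := norm_zero
  have h3 := h1.tendsto 0
  rwa [h2] at h3

theorem continuous_DL (L : Compacts ℂ) (hL : (L : Set ℂ) ⊆ U) :
    Continuous fun p : Hol U × StrongDual ℂ (PL L hL) => DL L hL p.1 p.2 := by
  have key : ∀ (l : Filter (Hol U × StrongDual ℂ (PL L hL))),
      (∀ (M : Compacts ℂ) (hM : (M : Set ℂ) ⊆ U),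
        Tendsto (fun p : Hol U × StrongDual ℂ (PL L hL) => ‖p.2‖ * ‖rest M hM p.1‖) l (𝓝 0)) →
      Tendsto (fun p : Hol U × StrongDual ℂ (PL L hL) => DL L hL p.1 p.2) l (𝓝 0) := by
    intro l hl
    have e0 : (𝓝 (0 : Hol U)) = comap Subtype.val (𝓝 (0 : C(U, ℂ))) := nhds_subtype_eq_comap
    rw [e0, tendsto_comap_iff, tendsto_zero_iff]
    intro K' hK' ε hε
    let K : Compacts ℂ := ⟨Subtype.val '' K', hK'.image continuous_subtype_val⟩
    have hK : (K : Set ℂ) ⊆ U := by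
      rintro _ ⟨z, -, rfl⟩
      exact z.2
    obtain ⟨M, hM, C, hC, h⟩ := ddz_dual_bound L hL K hK
    have h1 := (hl M hM).const_mul C
    rw [mul_zero] at h1
    filter_upwards [h1.eventually (Iio_mem_nhds hε)] with p hp z hz
    have h2 := h p.2 p.1 z ⟨z, hz, rfl⟩
    refine lt_of_le_of_lt ?_ hp
    have h3 := extz_DL L hL p.1 p.2 z.2
    rw [extz_apply] at h3
    rw [← h3] at h2
    exact h2
  have hrest : ∀ (M : Compacts ℂ) (hM : (M : Set ℂ) ⊆ U),
      Tendsto (fun f : Hol U => ‖rest M hM f‖) (𝓝 0) (𝓝 0) := by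
    intro M hM
    have h1 := (continuous_rest M hM).norm.tendsto 0
    rwa [map_zero, norm_zero] at h1
  have hadd : IsTopologicalAddGroup (Hol U) := (instHol (U := U)).frechet.add
  refine continuous_biadd (DL L hL) (add_DL L hL) (DL_add L hL) ?_ ?_ ?_
  · refine key _ fun M hM => ?_
    have h1 : Tendsto (fun p : Hol U × StrongDual ℂ (PL L hL) => ‖p.2‖) (𝓝 (0, 0)) (𝓝 0) :=
      (tendsto_norm_dual L hL).comp (continuous_snd.tendsto (0, 0))
    have h3 : Tendsto (fun p : Hol U × StrongDual ℂ (PL L hL) => ‖rest M hM p.1‖) (𝓝 (0, 0))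
        (𝓝 0) := (hrest M hM).comp (continuous_fst.tendsto (0, 0))
    have h4 := h1.mul h3
    rwa [mul_zero] at h4
  · intro f
    have h1 := key (map (fun φ => (f, φ)) (𝓝 (0 : StrongDual ℂ (PL L hL)))) (fun M hM => by
      rw [tendsto_map'_iff]
      have h2 : Tendsto (fun φ : StrongDual ℂ (PL L hL) => ‖φ‖ * ‖rest M hM f‖) (𝓝 0) (𝓝 0) := by
        have h3 := (tendsto_norm_dual L hL).mul_const ‖rest M hM f‖
        rwa [zero_mul] at h3
      exact h2)
    rw [tendsto_map'_iff] at h1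
    exact h1
  · intro φ
    have h1 := key (map (fun f => (f, φ)) (𝓝 (0 : Hol U))) (fun M hM => by
      rw [tendsto_map'_iff]
      have h2 : Tendsto (fun f : Hol U => ‖φ‖ * ‖rest M hM f‖) (𝓝 0) (𝓝 0) := by
        have h3 := (hrest M hM).const_mul ‖φ‖
        rwa [mul_zero] at h3
      exact h2)
    rw [tendsto_map'_iff] at h1
    exact h1

end

end Pool.Agent.H474_Inj
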