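import Pool.Agent.H474_Inj.HolMod2

/-!
# Evaluation functionals
-/

open Topology Filter TopologicalSpace

universe u v

namespace Pool.Agent.H474_Inj

section
variable {U : Opens ℂ}

instance instDualPL (L : Compacts ℂ) (hL : (L : Set ℂ) ⊆ U) :
    FrechetSpace (StrongDual ℂ (PL L hL)) := instBanach _

instance instHolF : FrechetSpace (Hol U) := (instHol (U := U)).frechet

theorem continuous_actL (L : Compacts ℂ) (hL : (L : Set ℂ) ⊆ U) :
    Continuous fun p : Hol U × StrongDual ℂ (PL L hL) => actL L hL p.1 p.2 := by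
  have hadd : IsTopologicalAddGroup (Hol U) := (instHol (U := U)).frechet.add
  have hrest : Tendsto (fun f : Hol U => ‖rest L hL f‖) (𝓝 0) (𝓝 0) := by
    have h1 := (continuous_rest L hL).norm.tendsto 0
    rwa [map_zero, norm_zero] at h1
  refine continuous_biadd (actL L hL) (add_actL L hL) (actL_add L hL) ?_ ?_ ?_
  · have h1 : Tendsto (fun p : Hol U × StrongDual ℂ (PL L hL) => ‖p.2‖ * ‖rest L hL p.1‖)
        (𝓝 (0, 0)) (𝓝 0) := by
      have h2 := ((tendsto_norm_dual L hL).comp
        (continuous_snd.tendsto ((0 : Hol U), (0 : StrongDual ℂ (PL L hL))))).mul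
        (hrest.comp (continuous_fst.tendsto ((0 : Hol U), (0 : StrongDual ℂ (PL L hL)))))
      rwa [mul_zero] at h2
    exact squeeze_zero_norm (fun p => norm_actL_le L hL p.1 p.2) h1
  · intro f
    have h1 := (tendsto_norm_dual L hL).mul_const ‖rest L hL f‖
    rw [zero_mul] at h1
    exact squeeze_zero_norm (fun p => norm_actL_le L hL f p) h1
  · intro φ
    have h1 := hrest.const_mul ‖φ‖
    rw [mul_zero] at h1
    exact squeeze_zero_norm (fun p => norm_actL_le L hL p φ) h1

/-- The extension of `O(U)` by the functionals on the restrictions to `L`. -/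
noncomputable def ZL (L : Compacts ℂ) (hL : (L : Set ℂ) ⊆ U) : FrechetModule.{0} (Hol U) where
  carrier := Hol U × StrongDual ℂ (PL L hL)
  act f p := (f * p.1 + DL L hL f p.2, actL L hL f p.2)
  add_act f g p := by
    refine Prod.ext ?_ ?_
    · simp only [Prod.fst_add, add_mul, add_DL]
      abel
    · simp only [Prod.snd_add, add_actL]
  act_add f p q := by
    refine Prod.ext ?_ ?_
    · simp only [Prod.fst_add, Prod.snd_add, mul_add, DL_add]
      abel
    · simp only [Prod.snd_add, actL_add]
  smul_act c f p := by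
    refine Prod.ext ?_ ?_
    · simp only [Prod.smul_fst, smul_mul_assoc, smul_DL, smul_add]
    · simp only [Prod.smul_snd, smul_actL]
  act_smul c f p := by
    refine Prod.ext ?_ ?_
    · simp only [Prod.smul_fst, Prod.smul_snd, mul_smul_comm, DL_smul, smul_add]
    · simp only [Prod.smul_snd, actL_smul]
  mul_act f g p := by
    refine Prod.ext ?_ ?_
    · simp only [mul_DL, mul_add, mul_assoc]
      abel
    · simp only [mul_actL]
  continuous_act := by
    refine Continuous.prodMk (Continuous.add ?_ ?_) ?_
    · exact (instHol (U := U)).continuous_mul.comp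
        (continuous_fst.prodMk (continuous_fst.comp continuous_snd))
    · exact (continuous_DL L hL).comp (continuous_fst.prodMk (continuous_snd.comp continuous_snd))
    · exact (continuous_actL L hL).comp
        (continuous_fst.prodMk (continuous_snd.comp continuous_snd))

theorem ZL_unital (L : Compacts ℂ) (hL : (L : Set ℂ) ⊆ U) : Unital (A := Hol U) (ZL L hL) := by
  have h1 : ∀ p : Hol U × StrongDual ℂ (PL L hL),
      ((1 * p.1 + DL L hL 1 p.2, actL L hL 1 p.2) : Hol U × StrongDual ℂ (PL L hL)) = p := by
    intro p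
    refine Prod.ext ?_ ?_
    · show 1 * p.1 + DL L hL 1 p.2 = p.1
      have h2 : DL L hL 1 p.2 = 0 := by
        refine extz_eq fun z hz => ?_
        have h3 : ddz z (1 : Hol U) = 0 := by
          apply cancelz z
          rw [mul_ddz, extz_one hz, mul_zero]
          exact sub_self (1 : Hol U)
        rw [extz_DL _ _ _ _ hz, h3, map_zero, map_zero]
        unfold extz
        split_ifs
        rfl
      rw [h2, one_mul, add_zero]
    · show actL L hL 1 p.2 = p.2
      ext x
      rw [actL_apply, map_one, one_mul]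
  exact h1

/-- Evaluation at the point `l` of `L`. -/
noncomputable def evL (L : Compacts ℂ) (hL : (L : Set ℂ) ⊆ U) (l : L) :
    StrongDual ℂ (PL L hL) :=
  LinearMap.mkContinuous
    ({ toFun := fun x => ((show (rest L hL).range from x) : C(L, ℂ)) l
       map_add' := fun _ _ => rfl
       map_smul' := fun _ _ => rfl } : PL L hL →ₗ[ℂ] ℂ) 1 (fun x => by
        rw [one_mul]
        exact ContinuousMap.norm_coe_le_norm ((show (rest L hL).range from x) : C(L, ℂ)) l)

theorem evL_apply (L : Compacts ℂ) (hL : (L : Set ℂ) ⊆ U) (l : L) (f : Hol U) :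
    evL L hL l (RL L hL f) = extz f l := rest_apply L hL f l

theorem norm_evL_le (L : Compacts ℂ) (hL : (L : Set ℂ) ⊆ U) (l : L) : ‖evL L hL l‖ ≤ 1 :=
  LinearMap.mkContinuous_norm_le _ zero_le_one _

/-- The elements dividing `x` by linear factors. -/
theorem exists_theta (J : FrechetModule.{u} (Hol U)) (hJ1 : Unital (A := Hol U) J)
    (hJ : UInjective (A := Hol U) J)
    (x : J.carrier) (L : Compacts ℂ) (hL : (L : Set ℂ) ⊆ U) :
    ∃ T : StrongDual ℂ (PL L hL) →L[ℂ] J.carrier,
      ∀ l : L, J.act (coordz - constz (l : ℂ)) (T (evL L hL l)) = x := by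
  let ι : Hol U →L[ℂ] (ZL L hL).carrier :=
    ContinuousLinearMap.inl ℂ (Hol U) (StrongDual ℂ (PL L hL))
  let π : (ZL L hL).carrier →L[ℂ] Hol U :=
    ContinuousLinearMap.fst ℂ (Hol U) (StrongDual ℂ (PL L hL))
  have hι : ∀ f g, ι (f * g) = (ZL L hL).act f (ι g) := by
    intro f g
    refine Prod.ext ?_ ?_
    · show f * g = f * g + DL L hL f 0
      have h1 : DL L hL f 0 = 0 := by
        have h2 := DL_smul L hL 0 f 0
        rwa [zero_smul, zero_smul] at h2
      rw [h1, add_zero]
    · show (0 : StrongDual ℂ (PL L hL)) = actL L hL f 0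
      rfl
  obtain ⟨θ, hθ, hθ1⟩ := extend (A := Hol U) J hJ1 hJ (ZL L hL) (ZL_unital L hL) ι hι π
    (fun f => rfl) x
  let T : StrongDual ℂ (PL L hL) →L[ℂ] J.carrier :=
    { toFun := fun φ => θ ((0, φ) : Hol U × StrongDual ℂ (PL L hL))
      map_add' := fun φ ψ => by
        have h1 : ((0, φ + ψ) : Hol U × StrongDual ℂ (PL L hL)) = (0, φ) + (0, ψ) := by simp
        have h2 : ∀ p q : Hol U × StrongDual ℂ (PL L hL), θ (p + q) = θ p + θ q :=
          fun p q => map_add θ p q
        rw [h1, h2]
      map_smul' := fun c φ => by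
        have h1 : ((0, c • φ) : Hol U × StrongDual ℂ (PL L hL)) = c • (0, φ) := by simp
        have h2 : ∀ (c : ℂ) (p : Hol U × StrongDual ℂ (PL L hL)), θ (c • p) = c • θ p :=
          fun c p => map_smul θ c p
        rw [h1, h2, RingHom.id_apply]
      cont := by
        have h1 : Continuous fun p : Hol U × StrongDual ℂ (PL L hL) => θ p := θ.continuous
        exact h1.comp (continuous_const.prodMk continuous_id) }
  refine ⟨T, fun l => ?_⟩
  have h1 := hθ (coordz - constz (l : ℂ)) ((0, evL L hL l) : Hol U × StrongDual ℂ (PL L hL))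
  have h2 : (ZL L hL).act (coordz - constz (l : ℂ))
      ((0, evL L hL l) : Hol U × StrongDual ℂ (PL L hL)) =
      ι 1 := by
    refine Prod.ext ?_ ?_
    · show (coordz - constz (l : ℂ)) * 0 + DL L hL (coordz - constz (l : ℂ)) (evL L hL l) = 1
      rw [mul_zero, zero_add]
      refine extz_eq fun z hz => ?_
      rw [extz_DL _ _ _ _ hz, ddz_coordz z hz, map_one, extz_one hz]
      have h3 := evL_apply L hL l (1 : Hol U)
      rw [map_one, extz_one (hL l.2)] at h3
      exact h3
    · show actL L hL (coordz - constz (l : ℂ)) (evL L hL l) = 0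
      ext x
      obtain ⟨f, rfl⟩ := RL_surjective L hL x
      rw [actL_apply, ← map_mul, evL_apply, extz_mul, extz_sub, extz_coordz (hL l.2),
        extz_constz (hL l.2), sub_self, zero_mul]
      rfl
  rw [h2, hθ1] at h1
  exact h1.symm

end

end Pool.Agent.H474_Inj
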