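import Pool.Agent.H474_Inj.Ext

/-!
# Formal power series
-/

open Topology Filter PowerSeries
open scoped PowerSeries.WithPiTopology

universe u v

namespace Pool.Agent.H474_Inj

/-- A Fréchet algebra as a module over itself. -/
noncomputable def selfModule (A : Type v) [NonUnitalRing A] [Module ℂ A] [TopologicalSpace A]
    [h : FrechetAlgebra A] : FrechetModule.{v} A where
  carrier := A
  act a b := a * b
  add_act a b x := add_mul a b x
  act_add a x y := mul_add a x y
  smul_act c a x := h.smul_mul c a x
  act_smul c a x := h.mul_smul c a x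
  mul_act a b x := mul_assoc a b x
  continuous_act := h.continuous_mul

instance instPS : FrechetSpace (PowerSeries ℂ) :=
  (inferInstance : FrechetSpace ((Unit →₀ ℕ) → ℂ))

instance instPSA : FrechetAlgebra (PowerSeries ℂ) where
  frechet := instPS
  smul_mul c a b := smul_mul_assoc c a b
  mul_smul c a b := mul_smul_comm c a b
  continuous_mul := continuous_mul

/-- The shift of the coefficients, a left inverse of the multiplication by `X ^ N`. -/
noncomputable def shiftPS (N : ℕ) : PowerSeries ℂ →L[ℂ] PowerSeries ℂ where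
  toFun f := PowerSeries.mk fun n => coeff (n + N) f
  map_add' f g := by ext n; simp
  map_smul' c f := by ext n; simp
  cont := by
    rw [continuous_iff_continuousAt]
    intro f
    unfold ContinuousAt
    rw [PowerSeries.WithPiTopology.tendsto_iff_coeff_tendsto]
    intro d
    simp only [coeff_mk]
    exact (PowerSeries.WithPiTopology.continuous_coeff ℂ (d + N)).tendsto f

/-- Multiplication by `X ^ N`. -/
noncomputable def mulPS (N : ℕ) : PowerSeries ℂ →L[ℂ] PowerSeries ℂ where
  toFun f := f * X ^ N
  map_add' _ _ := add_mul _ _ _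
  map_smul' _ _ := smul_mul_assoc _ _ _
  cont := continuous_id.mul continuous_const

/-- There are no nonzero injective unital Fréchet modules over `ℂ[[X]]`. -/
theorem ps_vanish (J : FrechetModule.{u} (PowerSeries ℂ)) (hJ1 : Unital J) (hJ : UInjective J) :
    Subsingleton J.carrier := by
  refine vanish (fun U hU => ?_) J hJ1 hJ
  have hN : ∃ N : ℕ, ∀ n : ℕ, ((n : ℂ) + 1) • (X ^ N : PowerSeries ℂ) ∈ U := by
    by_contra hcon
    push Not at hcon
    choose n hn using hcon
    have h1 : Tendsto (fun N => ((n N : ℂ) + 1) • (X ^ N : PowerSeries ℂ)) atTop (𝓝 0) := by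
      rw [PowerSeries.WithPiTopology.tendsto_iff_coeff_tendsto]
      intro d
      refine tendsto_const_nhds.congr' ?_
      filter_upwards [eventually_gt_atTop d] with N hN
      rw [map_smul, coeff_X_pow, if_neg hN.ne, smul_zero, map_zero]
    obtain ⟨N, hN⟩ := (h1.eventually hU).exists
    exact hn N hN
  obtain ⟨N, hN⟩ := hN
  refine ⟨selfModule (PowerSeries ℂ), mulPS N, shiftPS N, fun _ => X ^ N, fun _ => (1 : PowerSeries ℂ),
    fun n => (n : ℂ) + 1, fun f => one_mul (M := PowerSeries ℂ) f, fun a b => mul_assoc a b (X ^ N),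
    fun f => ?_, fun _ => ?_, fun n => ?_, Eventually.of_forall hN, ?_⟩
  · ext n
    show coeff n (PowerSeries.mk fun n => coeff (n + N) (f * X ^ N)) = coeff n f
    rw [coeff_mk, coeff_mul_X_pow]
  · show X ^ N * (1 : PowerSeries ℂ) = 1 * X ^ N
    rw [mul_one, one_mul]
  · exact Nat.cast_add_one_ne_zero n
  · have h1 : Tendsto (fun n : ℕ => ((n : ℂ) + 1)⁻¹) atTop (𝓝 0) := by
      have h2 := tendsto_one_div_add_atTop_nhds_zero_nat (𝕜 := ℂ)
      refine h2.congr fun n => ?_
      rw [one_div]
    have h3 := h1.smul_const (1 : PowerSeries ℂ)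
    rw [zero_smul] at h3
    exact h3

end Pool.Agent.H474_Inj
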