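import Pool.Agent.H474_Inj.Ext

/-!
# Passing from a unital algebra to the kernel of a character
-/

open Topology Filter

universe u v w

namespace Pool.Agent.H474_Inj

section
variable {A : Type v} [Ring A] [Module ℂ A] [TopologicalSpace A] [hA : FrechetAlgebra A]
variable {M : Type w} [NonUnitalRing M] [Module ℂ M] [TopologicalSpace M]

/-- A module over the kernel `M` of the character `χ` of `A`, as a unital module over `A`. -/
noncomputable def plus (χ : A →L[ℂ] ℂ) (hχ : ∀ a b, χ (a * b) = χ a * χ b)
    (q : A →L[ℂ] M) (hq : ∀ a b, q (a * b) = χ a • q b + χ b • q a + q a * q b)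
    (X : FrechetModule.{u} M) : FrechetModule.{u} A where
  carrier := X.carrier
  act a x := χ a • x + X.act (q a) x
  add_act a b x := by
    simp only [map_add, add_smul, X.add_act]
    abel
  act_add a x y := by
    simp only [smul_add, X.act_add]
    abel
  smul_act c a x := by
    simp only [map_smul, X.smul_act, smul_add, smul_eq_mul, mul_smul]
  act_smul c a x := by
    simp only [X.act_smul, smul_add, smul_comm c]
  mul_act a b x := by
    simp only [hχ, hq, X.add_act, X.smul_act, X.act_add, X.act_smul, X.mul_act, mul_smul,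
      smul_add]
    abel
  continuous_act := by
    refine Continuous.add ?_ ?_
    · exact (χ.continuous.comp continuous_fst).smul continuous_snd
    · exact X.continuous_act.comp ((q.continuous.comp continuous_fst).prodMk continuous_snd)

/-- A unital module over `A`, as a module over the kernel `M` of a character. -/
def restr (j : M →L[ℂ] A) (hj : ∀ a b, j (a * b) = j a * j b) (X : FrechetModule.{u} A) :
    FrechetModule.{u} M where
  carrier := X.carrier
  act a x := X.act (j a) x
  add_act a b x := by rw [map_add, X.add_act]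
  act_add a x y := X.act_add _ _ _
  smul_act c a x := by rw [map_smul, X.smul_act]
  act_smul c a x := X.act_smul _ _ _
  mul_act a b x := by rw [hj, X.mul_act]
  continuous_act :=
    X.continuous_act.comp ((j.continuous.comp continuous_fst).prodMk continuous_snd)

/-- If `A` has no nonzero injective unital modules, the kernel of a character of `A` has no nonzero
injective modules at all. -/
theorem transfer (χ : A →L[ℂ] ℂ) (hχ : ∀ a b, χ (a * b) = χ a * χ b) (hχ1 : χ 1 = 1)
    (j : M →L[ℂ] A) (hj : ∀ a b, j (a * b) = j a * j b)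
    (q : A →L[ℂ] M) (hqj : ∀ m, q (j m) = m) (hjq : ∀ a, j (q a) = a - χ a • (1 : A))
    (h : ∀ J : FrechetModule.{u} A, Unital J → UInjective J → Subsingleton J.carrier)
    (J : FrechetModule.{u} M) (hJ : Injective J) : Subsingleton J.carrier := by
  have hinj : Function.Injective j := fun a b hab => by rw [← hqj a, ← hqj b, hab]
  have hq : ∀ a b, q (a * b) = χ a • q b + χ b • q a + q a * q b := by
    intro a b
    apply hinj
    simp only [map_add, map_smul, hj, hjq, hχ]
    have e1 : ∀ (c : ℂ) (x y : A), (c • x) * y = c • (x * y) := hA.smul_mul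
    have e2 : ∀ (c : ℂ) (x y : A), x * (c • y) = c • (x * y) := hA.mul_smul
    simp only [sub_mul, mul_sub, e1, e2, one_mul, mul_one, smul_sub, smul_smul]
    rw [mul_comm (χ b) (χ a)]
    abel
  have hq1 : q 1 = 0 := by
    apply hinj
    rw [hjq, hχ1, one_smul, sub_self, map_zero]
  have hχj : ∀ m, χ (j m) = 0 := by
    intro m
    have h1 := hjq (j m)
    rw [hqj] at h1
    have h2 : χ (j m) • (1 : A) = 0 := by
      have := sub_eq_self.1 h1.symm
      exact this
    have h3 := congrArg χ h2
    rw [map_smul, hχ1, map_zero, smul_eq_mul, mul_one] at h3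
    exact h3
  refine h (plus χ hχ q hq J) ?_ ?_
  · have h1 : ∀ x : J.carrier, χ 1 • x + J.act (q 1) x = x := by
      intro x
      rw [hχ1, one_smul, hq1, J.zero_act, add_zero]
    exact h1
  · intro Y hY φ hφ hρ
    obtain ⟨ψ, hψ, hψ1⟩ : ∃ ψ : Y.carrier →L[ℂ] J.carrier, IsHom (restr j hj Y) J ψ ∧
        ∀ x : J.carrier, ψ (φ x) = x := hJ (restr j hj Y) φ (by
      intro m x
      have h1 := hφ (j m) x
      have h2 : (plus χ hχ q hq J).act (j m) x = J.act m x := by
        show χ (j m) • x + J.act (q (j m)) x = J.act m x
        rw [hχj, hqj, zero_smul, zero_add]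
      rw [h2] at h1
      exact h1) hρ
    refine ⟨ψ, ?_, hψ1⟩
    intro a y
    change ψ (Y.act a y) = χ a • ψ y + J.act (q a) (ψ y)
    have h1 : ψ (Y.act (j (q a)) y) = J.act (q a) (ψ y) := hψ (q a) y
    have h2 : Y.act a y = χ a • y + Y.act (j (q a)) y := by
      rw [hjq, Y.sub_act, Y.smul_act, hY]
      abel
    rw [h2]
    have h3 : ψ (χ a • y + Y.act (j (q a)) y) = ψ (χ a • y) + ψ (Y.act (j (q a)) y) :=
      map_add ψ _ _
    have h4 : ψ (χ a • y) = χ a • ψ y := map_smul ψ _ _
    rw [h3, h4, h1]

end

section
variable {A : Type v} [CommRing A] [Algebra ℂ A] [TopologicalSpace A] [hA : FrechetAlgebra A]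

/-- The kernel of a continuous character is a Fréchet algebra. -/
theorem frechetAlgebra_ker (χ : A →ₐ[ℂ] ℂ) (hχ : Continuous χ) :
    FrechetAlgebra (RingHom.ker χ) where
  frechet := by
    refine FrechetSpace.of_closedEmbedding (E := A)
      ((RingHom.ker χ).subtype.restrictScalars ℂ) ?_
    have hc : IsClosed ((RingHom.ker χ : Ideal A) : Set A) := by
      have h1 : ((RingHom.ker χ : Ideal A) : Set A) = χ ⁻¹' {0} := by
        ext z
        simp [RingHom.mem_ker]
      rw [h1]
      exact isClosed_singleton.preimage hχ
    exact hc.isClosedEmbedding_subtypeVal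
  smul_mul c a b := Subtype.ext (hA.smul_mul c a b)
  mul_smul c a b := Subtype.ext (hA.mul_smul c a b)
  continuous_mul := Continuous.subtype_mk (hA.continuous_mul.comp
    ((continuous_subtype_val.comp continuous_fst).prodMk
      (continuous_subtype_val.comp continuous_snd))) _

/-- If `A` has no nonzero injective unital modules, the kernel of a continuous character of `A` has
no nonzero injective modules at all. -/
theorem transfer_ker (χ : A →ₐ[ℂ] ℂ) (hχ : Continuous χ)
    (h : ∀ J : FrechetModule.{u} A, Unital J → UInjective J → Subsingleton J.carrier)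
    (J : FrechetModule.{u} (RingHom.ker χ)) (hJ : Injective J) : Subsingleton J.carrier := by
  let j : (RingHom.ker χ) →L[ℂ] A :=
    { toFun := fun x => x
      map_add' := fun _ _ => rfl
      map_smul' := fun _ _ => rfl
      cont := continuous_subtype_val }
  have hq : ∀ a : A, a - χ a • (1 : A) ∈ RingHom.ker χ := by
    intro a
    rw [RingHom.mem_ker, map_sub, map_smul, map_one, smul_eq_mul, mul_one, sub_self]
  let q : A →L[ℂ] (RingHom.ker χ) :=
    { toFun := fun a => ⟨a - χ a • (1 : A), hq a⟩
      map_add' := fun a b => Subtype.ext (by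
        show a + b - χ (a + b) • (1 : A) = (a - χ a • (1 : A)) + (b - χ b • (1 : A))
        rw [map_add, add_smul]
        abel)
      map_smul' := fun c a => Subtype.ext (by
        show c • a - χ (c • a) • (1 : A) = c • (a - χ a • (1 : A))
        rw [map_smul, smul_eq_mul, mul_smul, smul_sub])
      cont := Continuous.subtype_mk (continuous_id.sub (hχ.smul continuous_const)) _ }
  refine transfer (M := RingHom.ker χ) ⟨χ.toLinearMap, hχ⟩ (map_mul χ) (map_one χ) j
    (fun _ _ => rfl) q (fun m => ?_) (fun _ => rfl) h J hJ
  refine Subtype.ext ?_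
  show (m : A) - χ m • (1 : A) = m
  have h1 : χ (m : A) = 0 := m.2
  rw [h1, zero_smul, sub_zero]

end

end Pool.Agent.H474_Inj
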