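import Pool.Agent.H474_Inj.PS
import Pool.Agent.H474_Inj.Trans
import Pool.Agent.H474_Inj.Triv
import Pool.Agent.H474_Inj.Cores

/-!
# The maximal ideal of the algebra of formal power series, one-dimensional modules
-/

open Topology Filter
open scoped PowerSeries.WithPiTopology

universe u v

namespace Pool.Agent.H474_Inj

instance instULift : FrechetSpace (ULift.{u} ℂ) :=
  FrechetSpace.of_closedEmbedding (E := ℂ) (ULift.moduleEquiv (R := ℂ) (M := ℂ)).toLinearMap
    Homeomorph.ulift.isClosedEmbedding

/-- The one-dimensional module given by a character. -/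
noncomputable def charModule {A : Type v} [NonUnitalRing A] [Module ℂ A] [TopologicalSpace A] (χ : A →L[ℂ] ℂ)
    (hχ : ∀ a b, χ (a * b) = χ a * χ b) : FrechetModule.{u} A where
  carrier := ULift.{u} ℂ
  act a x := χ a • x
  add_act a b x := by rw [map_add, add_smul]
  act_add a x y := smul_add _ _ _
  smul_act c a x := by rw [map_smul, smul_eq_mul, mul_smul]
  act_smul c a x := smul_comm _ _ _
  mul_act a b x := by rw [hχ, mul_smul]
  continuous_act := (χ.continuous.comp continuous_fst).smul continuous_snd

/-- There are nonzero modules. -/
theorem exists_nontrivial (A : Type v) [NonUnitalRing A] [Module ℂ A] [TopologicalSpace A] :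
    ∃ X : FrechetModule.{u} A, Nontrivial X.carrier :=
  ⟨charModule 0 (fun _ _ => by simp), (inferInstance : Nontrivial (ULift.{u} ℂ))⟩

/-- The constant coefficient as a character of the algebra of formal power series. -/
noncomputable def constChar : PowerSeries ℂ →ₐ[ℂ] ℂ :=
  { PowerSeries.constantCoeff (R := ℂ) with
    commutes' := fun c => PowerSeries.constantCoeff_C c }

theorem continuous_constChar : Continuous constChar :=
  PowerSeries.WithPiTopology.continuous_constantCoeff ℂ

theorem span_X_eq : Ideal.span {(PowerSeries.X : PowerSeries ℂ)} = RingHom.ker constChar := by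
  ext f
  rw [Ideal.mem_span_singleton, PowerSeries.X_dvd_iff, RingHom.mem_ker]
  rfl

theorem exists_unital :
    ∃ X : FrechetModule.{u} (PowerSeries ℂ), Unital X ∧ Nontrivial X.carrier :=
  ⟨charModule ⟨constChar.toLinearMap, continuous_constChar⟩ (map_mul constChar), fun x => by
    show (constChar 1 : ℂ) • (x : ULift.{u} ℂ) = x
    rw [map_one, one_smul], (inferInstance : Nontrivial (ULift.{u} ℂ))⟩

theorem psMax_frechet : FrechetAlgebra (Ideal.span {(PowerSeries.X : PowerSeries ℂ)}) := by
  rw [span_X_eq]
  exact frechetAlgebra_ker constChar continuous_constChar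

theorem psMax_vanish : ∀ J : FrechetModule.{u} (Ideal.span {(PowerSeries.X : PowerSeries ℂ)}),
    Injective J → Subsingleton J.carrier := by
  rw [span_X_eq]
  exact transfer_ker constChar continuous_constChar ps_vanish

/-- The ideal `X ℂ[[X]]` of the algebra of formal power series. It is an algebra without unit, with
the topology induced by `ℂ[[X]]`. -/
noncomputable def PSIdeal : Ideal (PowerSeries ℂ) := Ideal.span {PowerSeries.X}

theorem psIdeal_frechet : FrechetAlgebra PSIdeal := psMax_frechet

theorem psIdeal_vanish (J : FrechetModule.{u} PSIdeal) (hJ : Injective J) :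
    Subsingleton J.carrier := psMax_vanish J hJ

end Pool.Agent.H474_Inj
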